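import Mathlib

/-!
# The entropy power region: definitions
-/

open MeasureTheory ProbabilityTheory Set

namespace Pool.Agent.H576R2.Ent

/-- Differential entropy `-∫ f log f` of a law `μ` on `ℝ^d`, where `f` is the density of `μ`. -/
noncomputable def diffEntropy {d : ℕ} (μ : Measure (Fin d → ℝ)) : ℝ :=
  ∫ x, Real.negMulLog (μ.rnDeriv volume x).toReal

/-- `μ` has a density and finite differential entropy. -/
def HasEntropy {d : ℕ} (μ : Measure (Fin d → ℝ)) : Prop :=
  μ ≪ volume ∧ Integrable fun x => Real.negMulLog (μ.rnDeriv volume x).toReal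

/-- Entropy power `exp (2 h / d)` of a law on `ℝ^d`. -/
noncomputable def entropyPower {d : ℕ} (μ : Measure (Fin d → ℝ)) : ℝ :=
  Real.exp (2 / d * diffEntropy μ)

/-- `Γ_d(n)`: the vectors of entropy powers `N(∑_{i ∈ S} X_i)`, indexed by the nonempty subsets
`S` of `[n]`, of `n` independent random vectors `X_i` in `ℝ^d`, all these sums having densities
and finite differential entropies. -/
def regionDim (d n : ℕ) : Set ({S : Finset (Fin n) // S.Nonempty} → ℝ) :=
  {v | ∃ (Ω : Type) (_ : MeasurableSpace Ω) (P : Measure Ω) (X : Fin n → Ω → (Fin d → ℝ)),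
    IsProbabilityMeasure P ∧ (∀ i, Measurable (X i)) ∧ iIndepFun X P ∧
    ∀ S : {S : Finset (Fin n) // S.Nonempty},
      HasEntropy (P.map fun ω => ∑ i ∈ S.1, X i ω) ∧
      v S = entropyPower (P.map fun ω => ∑ i ∈ S.1, X i ω)}

/-- The entropy power region `Γ(n) = ⋃_{d ≥ 1} Γ_d(n)`. -/
def region (n : ℕ) : Set ({S : Finset (Fin n) // S.Nonempty} → ℝ) :=
  ⋃ (d : ℕ) (_ : 1 ≤ d), regionDim d n

theorem HasEntropy.integrable_llr {d : ℕ} {μ : Measure (Fin d → ℝ)} [IsProbabilityMeasure μ]
    (h : HasEntropy μ) : Integrable (llr μ volume) μ := by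
  rw [← integrable_rnDeriv_mul_log_iff h.1]
  have := h.2.neg
  refine this.congr ?_
  filter_upwards with x
  simp [Real.negMulLog]

theorem HasEntropy.eq {d : ℕ} {μ : Measure (Fin d → ℝ)} [IsProbabilityMeasure μ]
    (h : HasEntropy μ) : diffEntropy μ = - ∫ x, llr μ volume x ∂μ := by
  rw [← integral_rnDeriv_mul_log h.1, ← integral_neg]
  unfold diffEntropy
  congr 1
  ext x
  simp [Real.negMulLog]

theorem hasEntropy_iff {d : ℕ} {μ : Measure (Fin d → ℝ)} [IsProbabilityMeasure μ] :
    HasEntropy μ ↔ μ ≪ volume ∧ Integrable (llr μ volume) μ := by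
  refine ⟨fun h => ⟨h.1, h.integrable_llr⟩, fun h => ⟨h.1, ?_⟩⟩
  have := (integrable_rnDeriv_mul_log_iff h.1).2 h.2
  refine this.neg.congr ?_
  filter_upwards with x
  simp [Real.negMulLog]

end Pool.Agent.H576R2.Ent
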