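import Pool.Agent.H576R2.EntDefs

open MeasureTheory ProbabilityTheory Set
open scoped ENNReal NNReal

namespace Pool.Agent.H576R2.Ent

/-- The centred Gaussian law on the plane with covariance matrix `diag (w 0) (w 1)`. -/
noncomputable def G (w : Fin 2 → ℝ≥0) : Measure (Fin 2 → ℝ) :=
  Measure.pi fun j => gaussianReal 0 (w j)

instance (w : Fin 2 → ℝ≥0) : IsProbabilityMeasure (G w) := by
  unfold G; infer_instance

theorem G_conv (w w' : Fin 2 → ℝ≥0) : G w ∗ G w' = G (w + w') := by
  have h1 := (measurePreserving_arrowProdEquivProdArrow ℝ ℝ (Fin 2)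
    (fun j => gaussianReal 0 (w j)) (fun j => gaussianReal 0 (w' j))).map_eq
  unfold G Measure.conv
  rw [← h1, Measure.map_map (by fun_prop) (MeasurableEquiv.measurable _)]
  have h2 : ((fun x : (Fin 2 → ℝ) × (Fin 2 → ℝ) => x.1 + x.2) ∘
      (MeasurableEquiv.arrowProdEquivProdArrow ℝ ℝ (Fin 2)))
      = fun (x : Fin 2 → ℝ × ℝ) (i : Fin 2) => (x i).1 + (x i).2 := by
    ext x i
    rfl
  rw [h2]
  have h3 := Measure.pi_map_pi (μ := fun j : Fin 2 => (gaussianReal 0 (w j)).prod
    (gaussianReal 0 (w' j))) (f := fun _ (z : ℝ × ℝ) => z.1 + z.2) (fun _ => by fun_prop)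
  rw [h3]
  congr 1
  ext1 j
  have := gaussianReal_conv_gaussianReal (m₁ := 0) (m₂ := 0) (v₁ := w j) (v₂ := w' j)
  rw [Measure.conv] at this
  rw [this]
  simp

theorem G_eq (w : Fin 2 → ℝ≥0) (h : ∀ j, w j ≠ 0) :
    G w = volume.withDensity fun x => gaussianPDF 0 (w 0) (x 0) * gaussianPDF 0 (w 1) (x 1) := by
  have e1 := measurePreserving_finTwoArrow_vec (gaussianReal 0 (w 0)) (gaussianReal 0 (w 1))
  have hG : G w = Measure.pi ![gaussianReal 0 (w 0), gaussianReal 0 (w 1)] := by
    unfold G
    congr 1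
    ext1 j
    fin_cases j <;> rfl
  have e2 := volume_preserving_finTwoArrow ℝ
  ext s hs
  rw [hG, withDensity_apply _ hs]
  set e := (MeasurableEquiv.finTwoArrow : (Fin 2 → ℝ) ≃ᵐ ℝ × ℝ) with he
  have hs' : MeasurableSet (e.symm ⁻¹' s) := e.symm.measurable hs
  have hpre : e ⁻¹' (e.symm ⁻¹' s) = s := by
    ext x; simp
  rw [← hpre, e1.measure_preimage hs'.nullMeasurableSet, gaussianReal_of_var_ne_zero _ (h 0),
    gaussianReal_of_var_ne_zero _ (h 1),
    prod_withDensity (measurable_gaussianPDF _ _) (measurable_gaussianPDF _ _),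
    withDensity_apply _ hs', ← Measure.volume_eq_prod]
  rw [← e2.setLIntegral_comp_preimage hs' (by
    exact ((measurable_gaussianPDF _ _).comp measurable_fst).mul
      ((measurable_gaussianPDF _ _).comp measurable_snd))]
  rfl

theorem log_gaussianPDFReal {v : ℝ≥0} (hv : v ≠ 0) (x : ℝ) :
    Real.log (gaussianPDFReal 0 v x) = - (1 / 2) * Real.log (2 * Real.pi * v) - x ^ 2 / (2 * v) := by
  have hv' : (0 : ℝ) < v := by positivity
  unfold gaussianPDFReal
  rw [Real.log_mul (by positivity) (by positivity), Real.log_exp, Real.log_inv, Real.log_sqrt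
    (by positivity)]
  simp
  ring

theorem integrable_sq_gaussian (v : ℝ≥0) : Integrable (fun x : ℝ => x ^ 2) (gaussianReal 0 v) := by
  have := (memLp_id_gaussianReal (μ := 0) (v := v) 2).integrable_sq
  simpa using this

theorem integral_sq_gaussian (v : ℝ≥0) : ∫ x, x ^ 2 ∂(gaussianReal 0 v) = v := by
  have h1 := variance_fun_id_gaussianReal (μ := 0) (v := v)
  rw [variance_eq_integral (by fun_prop), integral_id_gaussianReal] at h1
  simpa using h1

theorem integrable_log_pdf {v : ℝ≥0} (hv : v ≠ 0) :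
    Integrable (fun x => Real.log (gaussianPDFReal 0 v x)) (gaussianReal 0 v) := by
  simp_rw [log_gaussianPDFReal hv]
  exact (integrable_const _).sub ((integrable_sq_gaussian v).div_const _)

theorem integral_log_pdf {v : ℝ≥0} (hv : v ≠ 0) :
    ∫ x, Real.log (gaussianPDFReal 0 v x) ∂(gaussianReal 0 v)
      = - (1 / 2) * (Real.log (2 * Real.pi * v) + 1) := by
  simp_rw [log_gaussianPDFReal hv]
  have hv' : (v : ℝ) ≠ 0 := by exact_mod_cast hv
  rw [integral_sub (integrable_const _) ((integrable_sq_gaussian v).div_const _),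
    integral_div, integral_sq_gaussian]
  simp
  field_simp
  ring

theorem G_entropy (w : Fin 2 → ℝ≥0) (h : ∀ j, w j ≠ 0) :
    HasEntropy (G w) ∧ diffEntropy (G w) = 1 / 2 * (Real.log (2 * Real.pi * w 0) + 1)
      + 1 / 2 * (Real.log (2 * Real.pi * w 1) + 1) := by
  have hm : Measurable fun x : Fin 2 → ℝ =>
      gaussianPDF 0 (w 0) (x 0) * gaussianPDF 0 (w 1) (x 1) :=
    ((measurable_gaussianPDF _ _).comp (measurable_pi_apply 0)).mul
      ((measurable_gaussianPDF _ _).comp (measurable_pi_apply 1))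
  have hac : G w ≪ volume := by rw [G_eq w h]; exact withDensity_absolutelyContinuous _ _
  have hrn : (G w).rnDeriv volume =ᵐ[volume] fun x =>
      gaussianPDF 0 (w 0) (x 0) * gaussianPDF 0 (w 1) (x 1) := by
    nth_rw 1 [G_eq w h]; exact Measure.rnDeriv_withDensity _ hm
  have hllr : llr (G w) volume =ᵐ[G w] fun x =>
      Real.log (gaussianPDFReal 0 (w 0) (x 0)) + Real.log (gaussianPDFReal 0 (w 1) (x 1)) := by
    filter_upwards [hac.ae_le hrn] with x hx
    rw [llr, hx, ENNReal.toReal_mul, toReal_gaussianPDF, toReal_gaussianPDF, Real.log_mul]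
    · exact (gaussianPDFReal_pos _ _ _ (h 0)).ne'
    · exact (gaussianPDFReal_pos _ _ _ (h 1)).ne'
  have hev : ∀ j : Fin 2, (G w).map (fun x => x j) = gaussianReal 0 (w j) := fun j =>
    (measurePreserving_eval (fun j => gaussianReal 0 (w j)) j).map_eq
  have hml : ∀ j : Fin 2, Measurable fun y => Real.log (gaussianPDFReal 0 (w j) y) := fun j =>
    (measurable_gaussianPDFReal _ _).log
  have hi : ∀ j : Fin 2, Integrable (fun x : Fin 2 → ℝ => Real.log (gaussianPDFReal 0 (w j) (x j)))
      (G w) := by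
    intro j
    have := integrable_log_pdf (h j)
    rw [← hev j, integrable_map_measure (hml j).aestronglyMeasurable
      (measurable_pi_apply j).aemeasurable] at this
    exact this
  have he : ∀ j : Fin 2, ∫ x, Real.log (gaussianPDFReal 0 (w j) (x j)) ∂(G w)
      = - (1 / 2) * (Real.log (2 * Real.pi * w j) + 1) := by
    intro j
    rw [← integral_log_pdf (h j), ← hev j, integral_map (measurable_pi_apply j).aemeasurable
      (hml j).aestronglyMeasurable]
  have hint : Integrable (llr (G w) volume) (G w) := ((hi 0).add (hi 1)).congr hllr.symm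
  have hE : HasEntropy (G w) := hasEntropy_iff.2 ⟨hac, hint⟩
  refine ⟨hE, ?_⟩
  rw [hE.eq, integral_congr_ae hllr, integral_add (hi 0) (hi 1), he 0, he 1]
  ring

end Pool.Agent.H576R2.Ent
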