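import Pool.Agent.H576R2.EntDefs

open MeasureTheory ProbabilityTheory Set InformationTheory
open scoped ENNReal

namespace Pool.Agent.H576R2.Ent

variable {d : ℕ}

/-- The law of `(x, x + z)` for independent `x ~ α`, `z ~ γ`. -/
noncomputable def shearLaw (α γ : Measure (Fin d → ℝ)) : Measure ((Fin d → ℝ) × (Fin d → ℝ)) :=
  (α.prod γ).map fun w => (w.1, w.1 + w.2)

theorem measurable_shear : Measurable fun w : (Fin d → ℝ) × (Fin d → ℝ) => (w.1, w.1 + w.2) := by
  fun_prop

theorem shearLaw_eq (α γ : Measure (Fin d → ℝ)) [IsProbabilityMeasure α] [IsProbabilityMeasure γ]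
    (hγ : γ ≪ volume) :
    shearLaw α γ = (α.prod volume).withDensity fun w => γ.rnDeriv volume (w.2 - w.1) := by
  have hp : Measurable (γ.rnDeriv volume) := Measure.measurable_rnDeriv _ _
  have hmp : MeasurePreserving (fun w : (Fin d → ℝ) × (Fin d → ℝ) => (w.1, w.1 + w.2))
      (α.prod volume) (α.prod volume) := measurePreserving_prod_add α volume
  ext s hs
  rw [shearLaw, Measure.map_apply measurable_shear hs, withDensity_apply _ hs]
  nth_rw 1 [← Measure.withDensity_rnDeriv_eq γ volume hγ]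
  rw [prod_withDensity_right hp, withDensity_apply _ (measurable_shear hs)]
  rw [← hmp.setLIntegral_comp_preimage hs (by fun_prop)]
  simp

theorem snd_shearLaw (α γ : Measure (Fin d → ℝ)) [IsProbabilityMeasure α] [IsProbabilityMeasure γ] :
    (shearLaw α γ).map Prod.snd = α ∗ γ := by
  unfold shearLaw
  rw [Measure.map_map measurable_snd measurable_shear]
  rfl

instance (α γ : Measure (Fin d → ℝ)) [IsProbabilityMeasure α] [IsProbabilityMeasure γ] :
    IsProbabilityMeasure (shearLaw α γ) :=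
  Measure.isProbabilityMeasure_map measurable_shear.aemeasurable

theorem conv_ac (α γ : Measure (Fin d → ℝ)) [IsProbabilityMeasure α] [IsProbabilityMeasure γ]
    (hγ : γ ≪ volume) : α ∗ γ ≪ volume :=
  Measure.conv_absolutelyContinuous hγ

/-- Mutual information of `x` and `x + z`, for `x ~ α` and `z ~ γ` independent. -/
theorem shear_info (α γ : Measure (Fin d → ℝ)) [IsProbabilityMeasure α] [IsProbabilityMeasure γ]
    (hγ : HasEntropy γ) (hαγ : HasEntropy (α ∗ γ)) :
    klDiv (shearLaw α γ) (α.prod (α ∗ γ)) ≠ ∞ ∧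
      (klDiv (shearLaw α γ) (α.prod (α ∗ γ))).toReal = diffEntropy (α ∗ γ) - diffEntropy γ := by
  set p := γ.rnDeriv volume with hp_def
  set q := (α ∗ γ).rnDeriv volume with hq_def
  have hp : Measurable p := Measure.measurable_rnDeriv _ _
  have hq : Measurable q := Measure.measurable_rnDeriv _ _
  set κ : Measure ((Fin d → ℝ) × (Fin d → ℝ)) := α.prod volume with hκ
  set P := shearLaw α γ with hP
  set Q := α.prod (α ∗ γ) with hQ
  have hPκ : P = κ.withDensity fun w => p (w.2 - w.1) := shearLaw_eq α γ hγ.1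
  have hQκ : Q = κ.withDensity fun w => q w.2 := by
    rw [hQ, ← Measure.withDensity_rnDeriv_eq (α ∗ γ) volume hαγ.1, prod_withDensity_right hq]
  have hPacκ : P ≪ κ := by rw [hPκ]; exact withDensity_absolutelyContinuous _ _
  have hQacκ : Q ≪ κ := by rw [hQκ]; exact withDensity_absolutelyContinuous _ _
  -- `q` is positive almost everywhere
  have hqpos : ∀ᵐ w ∂P, 0 < q w.2 := by
    have h1 : ∀ᵐ u ∂(α ∗ γ), 0 < q u := Measure.rnDeriv_pos hαγ.1
    rw [← snd_shearLaw] at h1
    exact ae_of_ae_map measurable_snd.aemeasurable h1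
  have hac : P ≪ Q := by
    intro s hs
    rw [hQκ, withDensity_apply_eq_zero (by fun_prop)] at hs
    have h1 : P ({w | q w.2 ≠ 0} ∩ s) = 0 := hPacκ hs
    have h2 : P {w | ¬ 0 < q w.2} = 0 := hqpos
    refine measure_mono_null ?_ (measure_union_null h1 h2)
    intro w hw
    by_cases h : 0 < q w.2
    · exact Or.inl ⟨h.ne', hw⟩
    · exact Or.inr h
  have hrP : P.rnDeriv κ =ᵐ[κ] fun w => p (w.2 - w.1) := by
    rw [hPκ]; exact Measure.rnDeriv_withDensity κ (by fun_prop)
  have hrQ : Q.rnDeriv κ =ᵐ[κ] fun w => q w.2 := by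
    rw [hQκ]; exact Measure.rnDeriv_withDensity κ (by fun_prop)
  have hmul : P.rnDeriv Q * Q.rnDeriv κ =ᵐ[κ] P.rnDeriv κ := Measure.rnDeriv_mul_rnDeriv hac
  have hPpos : ∀ᵐ w ∂P, 0 < P.rnDeriv κ w := Measure.rnDeriv_pos hPacκ
  have hPQpos : ∀ᵐ w ∂P, 0 < P.rnDeriv Q w := Measure.rnDeriv_pos hac
  have hPQtop : ∀ᵐ w ∂P, P.rnDeriv Q w < ∞ := hac.ae_le (Measure.rnDeriv_lt_top P Q)
  have hQtop : ∀ᵐ w ∂P, Q.rnDeriv κ w < ∞ := hPacκ.ae_le (Measure.rnDeriv_lt_top Q κ)
  have hllr : llr P Q =ᵐ[P] fun w => Real.log (p (w.2 - w.1)).toReal - Real.log (q w.2).toReal := by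
    filter_upwards [hPacκ.ae_le hrP, hPacκ.ae_le hrQ, hPacκ.ae_le hmul, hPpos, hPQpos, hPQtop,
      hQtop, hqpos] with w h1 h2 h3 h4 h5 h6 h7 h8
    rw [← h1, ← h2, ← h3, Pi.mul_apply, ENNReal.toReal_mul, Real.log_mul]
    · rw [llr]; ring
    · exact (ENNReal.toReal_pos h5.ne' h6.ne).ne'
    · rw [h2] at h7 ⊢
      exact (ENNReal.toReal_pos h8.ne' h7.ne).ne'
  -- integrals
  have hγint : Integrable (fun z => Real.log (p z).toReal) γ := hγ.integrable_llr
  have hcint : Integrable (fun u => Real.log (q u).toReal) (α ∗ γ) := hαγ.integrable_llr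
  have hlogp : Measurable fun z => Real.log (p z).toReal := by fun_prop
  have hlogq : Measurable fun z => Real.log (q z).toReal := by fun_prop
  have hmsub : AEStronglyMeasurable
      (fun w : (Fin d → ℝ) × (Fin d → ℝ) => Real.log (p (w.2 - w.1)).toReal)
      ((α.prod γ).map fun w : (Fin d → ℝ) × (Fin d → ℝ) => (w.1, w.1 + w.2)) :=
    (hlogp.comp (measurable_snd.sub measurable_fst)).aestronglyMeasurable
  have i1 : Integrable (fun w : (Fin d → ℝ) × (Fin d → ℝ) => Real.log (p (w.2 - w.1)).toReal) P := by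
    rw [hP, shearLaw, integrable_map_measure hmsub measurable_shear.aemeasurable]
    have : (fun w : (Fin d → ℝ) × (Fin d → ℝ) => Real.log (p (w.2 - w.1)).toReal) ∘
        (fun w : (Fin d → ℝ) × (Fin d → ℝ) => (w.1, w.1 + w.2))
        = fun w => Real.log (p w.2).toReal := by
      ext w; simp
    rw [this]
    exact hγint.comp_snd α
  have e1 : ∫ w, Real.log (p (w.2 - w.1)).toReal ∂P = - diffEntropy γ := by
    rw [hP, shearLaw, integral_map measurable_shear.aemeasurable hmsub]
    simp only [add_sub_cancel_left]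
    rw [hγ.eq, neg_neg]
    have := integral_fun_snd (μ := α) (ν := γ) (fun z => Real.log (p z).toReal)
    simp only [probReal_univ, one_smul] at this
    exact this
  have i2 : Integrable (fun w : (Fin d → ℝ) × (Fin d → ℝ) => Real.log (q w.2).toReal) P := by
    have h1 := hcint
    rw [← snd_shearLaw, integrable_map_measure hlogq.aestronglyMeasurable
      measurable_snd.aemeasurable] at h1
    exact h1
  have e2 : ∫ w, Real.log (q w.2).toReal ∂P = - diffEntropy (α ∗ γ) := by
    have h1 : ∫ u, Real.log (q u).toReal ∂(P.map Prod.snd) = ∫ w, Real.log (q w.2).toReal ∂P :=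
      integral_map measurable_snd.aemeasurable hlogq.aestronglyMeasurable
    rw [← h1, hP, snd_shearLaw, hαγ.eq, neg_neg]
    rfl
  have hint : Integrable (llr P Q) P := (i1.sub i2).congr hllr.symm
  refine ⟨klDiv_ne_top hac hint, ?_⟩
  rw [toReal_klDiv_of_measure_eq hac (by simp), integral_congr_ae hllr, integral_sub i1 i2, e1, e2]
  ring

end Pool.Agent.H576R2.Ent
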