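import Pool.Agent.H576R2.EntSub
import Pool.Agent.H576R2.EntGauss

open MeasureTheory ProbabilityTheory Set
open scoped ENNReal NNReal

namespace Pool.Agent.H576R2.Ent

variable {n : ℕ}

/-- A nonempty subset of `[n]` as a coordinate. -/
def co (S : Finset (Fin n)) (h : S.Nonempty) : {S : Finset (Fin n) // S.Nonempty} := ⟨S, h⟩

theorem region_ineq {a b c : Fin n} (hab : a ≠ b) (hac : a ≠ c) (hbc : b ≠ c)
    {v : {S : Finset (Fin n) // S.Nonempty} → ℝ} (hv : v ∈ region n) :
    v (co {a, b, c} (by simp)) * v (co {c} (by simp))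
      ≤ v (co {a, c} (by simp)) * v (co {b, c} (by simp)) := by
  unfold region at hv
  simp only [mem_iUnion] at hv
  obtain ⟨d, hd, Ω, _, P, X, _, hX, hind, hS⟩ := hv
  set α := P.map (X a) with hα
  set β := P.map (X b) with hβ
  set γ := P.map (X c) with hγ
  have : IsProbabilityMeasure α := Measure.isProbabilityMeasure_map (hX a).aemeasurable
  have : IsProbabilityMeasure β := Measure.isProbabilityMeasure_map (hX b).aemeasurable
  have : IsProbabilityMeasure γ := Measure.isProbabilityMeasure_map (hX c).aemeasurable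
  have e1 : (P.map fun ω => ∑ i ∈ ({c} : Finset (Fin n)), X i ω) = γ := by
    simp only [Finset.sum_singleton]; rfl
  have e2 : (P.map fun ω => ∑ i ∈ ({a, c} : Finset (Fin n)), X i ω) = α ∗ γ := by
    have : (fun ω => ∑ i ∈ ({a, c} : Finset (Fin n)), X i ω) = X a + X c := by
      ext1 ω; rw [Finset.sum_pair hac]; rfl
    rw [this, (hind.indepFun hac).map_add_eq_map_conv_map (hX a) (hX c)]
  have hcb : P.map (X c + X b) = γ ∗ β :=
    (hind.indepFun hbc.symm).map_add_eq_map_conv_map (hX c) (hX b)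
  have e3 : (P.map fun ω => ∑ i ∈ ({b, c} : Finset (Fin n)), X i ω) = γ ∗ β := by
    have : (fun ω => ∑ i ∈ ({b, c} : Finset (Fin n)), X i ω) = X c + X b := by
      ext1 ω; rw [Finset.sum_pair hbc, add_comm]; rfl
    rw [this, hcb]
  have e4 : (P.map fun ω => ∑ i ∈ ({a, b, c} : Finset (Fin n)), X i ω) = α ∗ (γ ∗ β) := by
    have h1 : (fun ω => ∑ i ∈ ({a, b, c} : Finset (Fin n)), X i ω) = X a + (X c + X b) := by
      ext1 ω
      rw [Finset.sum_insert (by simp [hab, hac]), Finset.sum_pair hbc, add_comm (X b ω)]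
      rfl
    rw [h1, (hind.indepFun_add_right hX a c b hac hab).map_add_eq_map_conv_map (hX a)
      ((hX c).add (hX b)), hcb]
  obtain ⟨f1, g1⟩ := hS (co {c} (by simp))
  obtain ⟨f2, g2⟩ := hS (co {a, c} (by simp))
  obtain ⟨f3, g3⟩ := hS (co {b, c} (by simp))
  obtain ⟨f4, g4⟩ := hS (co {a, b, c} (by simp))
  simp only [co] at f1 g1 f2 g2 f3 g3 f4 g4
  rw [e1] at f1 g1
  rw [e2] at f2 g2
  rw [e3] at f3 g3
  rw [e4] at f4 g4
  simp only [co]
  rw [g1, g2, g3, g4]
  unfold entropyPower
  rw [← Real.exp_add, ← Real.exp_add, Real.exp_le_exp, ← mul_add, ← mul_add]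
  exact mul_le_mul_of_nonneg_left (submodular α β γ f1 f2 f3 f4) (by positivity)

/-- The entropy powers of the subset sums of independent planar Gaussians. -/
noncomputable def gv (V : Fin n → Fin 2 → ℝ≥0) (S : {S : Finset (Fin n) // S.Nonempty}) : ℝ :=
  entropyPower (G (∑ i ∈ S.1, V i))

theorem map_sum_eq (V : Fin n → Fin 2 → ℝ≥0) {S : Finset (Fin n)} (hS : S.Nonempty) :
    ((Measure.pi fun i => G (V i)).map fun ω => ∑ i ∈ S, ω i) = G (∑ i ∈ S, V i) := by
  have hind : iIndepFun (fun (i : Fin n) (ω : Fin n → Fin 2 → ℝ) => ω i)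
      (Measure.pi fun i => G (V i)) := iIndepFun_pi (X := fun _ x => x) fun _ => by fun_prop
  have hm : ∀ i : Fin n, Measurable fun ω : Fin n → Fin 2 → ℝ => ω i := fun i => by fun_prop
  induction hS using Finset.Nonempty.cons_induction with
  | singleton a =>
    simp only [Finset.sum_singleton]
    exact (measurePreserving_eval (fun i => G (V i)) a).map_eq
  | cons a s ha hs ih =>
    simp only [Finset.sum_cons]
    have h1 := (hind.indepFun_finsetSum_of_notMem hm ha).symm
    have h2 := h1.map_add_eq_map_conv_map (hm a) (by fun_prop)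
    have h3 : (fun ω : Fin n → Fin 2 → ℝ => ω a + ∑ i ∈ s, ω i)
        = (fun ω : Fin n → Fin 2 → ℝ => ω a) + ∑ j ∈ s, fun ω : Fin n → Fin 2 → ℝ => ω j := by
      ext ω; simp
    have h4 : (fun ω : Fin n → Fin 2 → ℝ => ∑ i ∈ s, ω i)
        = ∑ j ∈ s, fun ω : Fin n → Fin 2 → ℝ => ω j := by
      ext ω; simp
    rw [h3, h2, ← h4, ih, ← G_conv]
    congr 1
    exact (measurePreserving_eval (fun i => G (V i)) a).map_eq

theorem gv_mem (V : Fin n → Fin 2 → ℝ≥0) (hV : ∀ i j, V i j ≠ 0) : gv V ∈ region n := by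
  unfold region
  simp only [mem_iUnion]
  refine ⟨2, by norm_num, Fin n → Fin 2 → ℝ, inferInstance, Measure.pi fun i => G (V i),
    fun i ω => ω i, inferInstance, fun i => by fun_prop,
    iIndepFun_pi (X := fun _ x => x) fun _ => by fun_prop, ?_⟩
  rintro ⟨S, hS⟩
  rw [map_sum_eq V hS]
  refine ⟨(G_entropy _ ?_).1, rfl⟩
  intro j
  rw [Finset.sum_apply]
  obtain ⟨i, hi⟩ := hS
  intro h0
  rw [Finset.sum_eq_zero_iff] at h0
  exact hV i j (h0 i hi)

theorem entropyPower_G (w : Fin 2 → ℝ≥0) (r : ℝ) (hr : 0 < r) (h : ∀ j, w j ≠ 0)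
    (hw : (w 0 : ℝ) * w 1 = r ^ 2) : entropyPower (G w) = 2 * Real.pi * Real.exp 1 * r := by
  have h0 : (0 : ℝ) < w 0 := by have := h 0; positivity
  have h1 : (0 : ℝ) < w 1 := by have := h 1; positivity
  unfold entropyPower
  rw [(G_entropy w h).2]
  have hlog : Real.log (2 * Real.pi * w 0) + Real.log (2 * Real.pi * w 1)
      = 2 * Real.log (2 * Real.pi * r) := by
    rw [← Real.log_mul (by positivity) (by positivity), ← Real.log_rpow (by positivity)]
    congr 1
    rw [Real.rpow_two]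
    have : 2 * Real.pi * (w 0 : ℝ) * (2 * Real.pi * w 1) = (2 * Real.pi) ^ 2 * (w 0 * w 1) := by
      ring
    rw [this, hw]
    ring
  have : (2 : ℝ) / (2 : ℕ) * (1 / 2 * (Real.log (2 * Real.pi * w 0) + 1)
      + 1 / 2 * (Real.log (2 * Real.pi * w 1) + 1)) = 1 + Real.log (2 * Real.pi * r) := by
    push_cast
    linarith
  rw [this, Real.exp_add, Real.exp_log (by positivity)]
  ring

/-- The closure of the entropy power region is not convex for `n ≥ 3`. -/
theorem not_convex (n : ℕ) (hn : 3 ≤ n) : ¬ Convex ℝ (closure (region n)) := by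
  intro hconv
  let a : Fin n := ⟨0, by omega⟩
  let b : Fin n := ⟨1, by omega⟩
  let c : Fin n := ⟨2, by omega⟩
  have hab : a ≠ b := by simp [a, b]
  have hac : a ≠ c := by simp [a, c]
  have hbc : b ≠ c := by simp [b, c]
  let V : Fin n → Fin 2 → ℝ≥0 := fun i => if i = c then ![1, 1] else ![1 / 10, 1 / 10]
  let W : Fin n → Fin 2 → ℝ≥0 := fun i =>
    if i = c then ![1, 1] else if i = a then ![8, 21 / 100] else if i = b then ![21 / 100, 8]
    else ![1, 1]
  have hV : ∀ i j, V i j ≠ 0 := by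
    intro i j
    simp only [V]
    split_ifs <;> fin_cases j <;> simp
  have hW : ∀ i j, W i j ≠ 0 := by
    intro i j
    simp only [W]
    split_ifs <;> fin_cases j <;> simp
  set K : ℝ := 2 * Real.pi * Real.exp 1 with hK
  have hKpos : 0 < K := by positivity
  have va : V a = ![1 / 10, 1 / 10] := by simp [V, hac]
  have vb : V b = ![1 / 10, 1 / 10] := by simp [V, hbc]
  have vc : V c = ![1, 1] := by simp [V]
  have wa : W a = ![8, 21 / 100] := by simp [W, hac]
  have wb : W b = ![21 / 100, 8] := by simp [W, hbc, hab.symm]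
  have wc : W c = ![1, 1] := by simp [W]
  have key : ∀ (U : Fin n → Fin 2 → ℝ≥0) (S : Finset (Fin n)) (hS : S.Nonempty) (r : ℝ),
      (∀ i j, U i j ≠ 0) → 0 < r →
      (((∑ i ∈ S, U i) 0 : ℝ≥0) : ℝ) * (((∑ i ∈ S, U i) 1 : ℝ≥0) : ℝ) = r ^ 2 →
      gv U (co S hS) = K * r := by
    intro U S hS r hU hr h
    refine entropyPower_G _ r hr ?_ h
    intro j h0
    simp only [co] at h0
    rw [Finset.sum_apply] at h0
    obtain ⟨i, hi⟩ := hS
    rw [Finset.sum_eq_zero_iff] at h0
    exact hU i j (h0 i hi)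
  have s3 : ∀ U : Fin n → Fin 2 → ℝ≥0, ∑ i ∈ ({a, b, c} : Finset (Fin n)), U i
      = U a + (U b + U c) := by
    intro U
    rw [Finset.sum_insert (by simp [hab, hac]), Finset.sum_pair hbc]
  have v1 : gv V (co {c} (by simp)) = K * 1 := by
    apply key V _ _ _ hV (by norm_num)
    rw [Finset.sum_singleton, vc]; simp
  have v2 : gv V (co {a, c} (by simp)) = K * (11 / 10) := by
    apply key V _ _ _ hV (by norm_num)
    rw [Finset.sum_pair hac, va, vc]; simp; norm_num
  have v3 : gv V (co {b, c} (by simp)) = K * (11 / 10) := by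
    apply key V _ _ _ hV (by norm_num)
    rw [Finset.sum_pair hbc, vb, vc]; simp; norm_num
  have v4 : gv V (co {a, b, c} (by simp)) = K * (12 / 10) := by
    apply key V _ _ _ hV (by norm_num)
    rw [s3, va, vb, vc]; simp; norm_num
  have w1 : gv W (co {c} (by simp)) = K * 1 := by
    apply key W _ _ _ hW (by norm_num)
    rw [Finset.sum_singleton, wc]; simp
  have w2 : gv W (co {a, c} (by simp)) = K * (33 / 10) := by
    apply key W _ _ _ hW (by norm_num)
    rw [Finset.sum_pair hac, wa, wc]; simp; norm_num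
  have w3 : gv W (co {b, c} (by simp)) = K * (33 / 10) := by
    apply key W _ _ _ hW (by norm_num)
    rw [Finset.sum_pair hbc, wb, wc]; simp; norm_num
  have w4 : gv W (co {a, b, c} (by simp)) = K * (921 / 100) := by
    apply key W _ _ _ hW (by norm_num)
    rw [s3, wa, wb, wc]; simp; norm_num
  have hclosed : IsClosed {v : {S : Finset (Fin n) // S.Nonempty} → ℝ |
      v (co {a, b, c} (by simp)) * v (co {c} (by simp))
        ≤ v (co {a, c} (by simp)) * v (co {b, c} (by simp))} :=
    isClosed_le (by fun_prop) (by fun_prop)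
  have hsub := hclosed.closure_subset_iff.2 fun v (hv : v ∈ region n) =>
    region_ineq hab hac hbc hv
  have hmem := hconv (subset_closure (gv_mem V hV)) (subset_closure (gv_mem W hW))
    (by norm_num : (0 : ℝ) ≤ 1 / 2) (by norm_num : (0 : ℝ) ≤ 1 / 2) (by norm_num)
  have := hsub hmem
  simp only [mem_ofPred_eq, Pi.add_apply, Pi.smul_apply, smul_eq_mul, v1, v2, v3, v4,
    w1, w2, w3, w4] at this
  nlinarith [mul_pos hKpos hKpos]

end Pool.Agent.H576R2.Ent
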