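import Pool.Agent.H576R2.EntKL

open MeasureTheory ProbabilityTheory Set InformationTheory
open scoped ENNReal

namespace Pool.Agent.H576R2.Ent

variable {d : ℕ}

/-- Add an independent noise to the second coordinate. -/
def addSnd (w : ((Fin d → ℝ) × (Fin d → ℝ)) × (Fin d → ℝ)) : (Fin d → ℝ) × (Fin d → ℝ) :=
  (w.1.1, w.1.2 + w.2)

theorem measurable_addSnd : Measurable (addSnd (d := d)) := by
  unfold addSnd; fun_prop

theorem map_addSnd_prod (α ρ β : Measure (Fin d → ℝ)) [IsProbabilityMeasure α]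
    [IsProbabilityMeasure ρ] [IsProbabilityMeasure β] :
    ((α.prod ρ).prod β).map addSnd = α.prod (ρ ∗ β) := by
  have h1 : α.prod (ρ ∗ β) = (α.prod (ρ.prod β)).map
      (Prod.map id fun w : (Fin d → ℝ) × (Fin d → ℝ) => w.1 + w.2) := by
    rw [← Measure.map_prod_map _ _ measurable_id (by fun_prop), Measure.map_id]
    rfl
  rw [h1, ← Measure.prodAssoc_prod, Measure.map_map (by fun_prop) (by fun_prop)]
  rfl

theorem map_addSnd_shear (α γ β : Measure (Fin d → ℝ)) [IsProbabilityMeasure α]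
    [IsProbabilityMeasure γ] [IsProbabilityMeasure β] :
    ((shearLaw α γ).prod β).map addSnd = shearLaw α (γ ∗ β) := by
  have h1 : shearLaw α (γ ∗ β) = (((α.prod γ).prod β).map addSnd).map
      (fun w : (Fin d → ℝ) × (Fin d → ℝ) => (w.1, w.1 + w.2)) := by
    rw [map_addSnd_prod]; rfl
  have h2 : (shearLaw α γ).prod β = ((α.prod γ).prod β).map
      (Prod.map (fun w : (Fin d → ℝ) × (Fin d → ℝ) => (w.1, w.1 + w.2)) id) := by
    rw [← Measure.map_prod_map _ _ measurable_shear measurable_id, Measure.map_id]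
    rfl
  rw [h1, h2, Measure.map_map measurable_addSnd (by fun_prop),
    Measure.map_map measurable_shear measurable_addSnd]
  congr 1
  ext w : 1
  simp only [addSnd, Function.comp, Prod.map, id, add_assoc]

/-- Submodularity of the entropy of sums. -/
theorem submodular (α β γ : Measure (Fin d → ℝ)) [IsProbabilityMeasure α]
    [IsProbabilityMeasure β] [IsProbabilityMeasure γ] (h1 : HasEntropy γ)
    (h2 : HasEntropy (α ∗ γ)) (h3 : HasEntropy (γ ∗ β)) (h4 : HasEntropy (α ∗ (γ ∗ β))) :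
    diffEntropy (α ∗ (γ ∗ β)) + diffEntropy γ ≤ diffEntropy (α ∗ γ) + diffEntropy (γ ∗ β) := by
  obtain ⟨hfin, e1⟩ := shear_info α γ h1 h2
  obtain ⟨_, e2⟩ := shear_info α (γ ∗ β) h3 h4
  have hle : klDiv (shearLaw α (γ ∗ β)) (α.prod (α ∗ (γ ∗ β)))
      ≤ klDiv (shearLaw α γ) (α.prod (α ∗ γ)) := by
    rw [← map_addSnd_shear, ← Measure.conv_assoc, ← map_addSnd_prod]
    refine (klDiv_map_le _ _ measurable_addSnd).trans (le_of_eq ?_)
    rw [← Measure.compProd_const, ← Measure.compProd_const, klDiv_compProd_left]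
  have := ENNReal.toReal_mono hfin hle
  linarith

end Pool.Agent.H576R2.Ent
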