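import Pool.Agent.H576R2.RdvUpper

open MeasureTheory Set
open scoped NNReal ENNReal

namespace Pool.Agent.H576R2.Rdv

/-- Follow the pattern `P` during the first six quarter steps, afterwards use the coins `c`,
each for two quarter steps. -/
def seq (P c : ℕ → Bool) (j : ℕ) : Bool := if j < 6 then P j else c ((j - 6) / 2)

theorem xor_seq (r : Bool) (P c : ℕ → Bool) :
    (fun j => xor r (seq P c j)) = seq (fun j => xor r (P j)) (fun j => xor r (c j)) := by
  ext1 j
  unfold seq
  split_ifs <;> rfl

theorem zs_seq (P Q c c' : ℕ → Bool) (k : ℕ) (hk : k ≤ 6) :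
    zs (seq P c) (seq Q c') k = zs P Q k := by
  unfold zs
  refine Finset.sum_congr rfl fun j hj => ?_
  have : j < 6 := by have := Finset.mem_range.mp hj; omega
  simp [seq, this]

theorem trav_seq (P Q c c' : ℕ → Bool) (a : ℤ) (k : ℕ) (hk : k < 6) (h : Trav P Q a k) :
    Trav (seq P c) (seq Q c') a k := by
  unfold Trav wm at *
  rw [zs_seq P Q c c' k hk.le]
  simpa [seq, hk] using h

theorem zs_tail (P Q c c' : ℕ → Bool) (κ : ℕ) (hc : ∀ j < κ, c j = c' j) (m : ℕ)
    (hm : m ≤ 2 * κ) : zs (seq P c) (seq Q c') (6 + m) = zs P Q 6 := by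
  induction m with
  | zero => exact zs_seq P Q c c' 6 le_rfl
  | succ m ih =>
    have e : zs (seq P c) (seq Q c') (6 + (m + 1)) = zs (seq P c) (seq Q c') (6 + m)
        + (b2i (seq P c (6 + m)) - b2i (seq Q c' (6 + m))) := by
      unfold zs
      rw [← add_assoc, Finset.sum_range_succ]
    rw [e, ih (by omega)]
    have h1 : ¬ (6 + m < 6) := by omega
    have h2 : (6 + m - 6) / 2 < κ := by omega
    simp only [seq, h1, if_false]
    rw [hc _ h2]
    simp

/-- The step at which half circle `a` is swept (an upper bound for it), when the coins first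
differ at index `κ` and the first player's coin there is `σ`. -/
def NN (P Q : ℕ → Bool) (a : ℤ) (κ : ℕ) (σ : Bool) : ℕ :=
  match (List.range 6).find? (fun k => decide (Trav P Q a k)) with
  | some k => k
  | none => 6 + 2 * κ +
      (if σ then (if zs P Q 6 % 2 = a then 0 else 1) else (if zs P Q 6 % 2 = a then 1 else 0))

theorem NN_trav (P Q c c' : ℕ → Bool) (κ : ℕ) (hc : ∀ j < κ, c j = c' j) (hκ : c κ ≠ c' κ)
    (a : ℤ) (ha : a = 0 ∨ a = 1) : Trav (seq P c) (seq Q c') a (NN P Q a κ (c κ)) := by
  unfold NN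
  cases hf : (List.range 6).find? (fun k => decide (Trav P Q a k)) with
  | some k =>
    have h1 := List.find?_some hf
    have h2 := List.mem_of_find?_eq_some hf
    have h3 : k < 6 := List.mem_range.mp h2
    exact trav_seq P Q c c' a k h3 (by simpa using h1)
  | none =>
    simp only
    have z0 := zs_tail P Q c c' κ hc (2 * κ) le_rfl
    have s0 : ∀ (R e : ℕ → Bool), seq R e (6 + 2 * κ) = e κ := by
      intro R e
      have h1 : ¬ (6 + 2 * κ < 6) := by omega
      have h2 : (6 + 2 * κ - 6) / 2 = κ := by omega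
      simp only [seq, h1, if_false, h2]
    have s1 : ∀ (R e : ℕ → Bool), seq R e (6 + 2 * κ + 1) = e κ := by
      intro R e
      have h1 : ¬ (6 + 2 * κ + 1 < 6) := by omega
      have h2 : (6 + 2 * κ + 1 - 6) / 2 = κ := by omega
      simp only [seq, h1, if_false, h2]
    have z1 : zs (seq P c) (seq Q c') (6 + 2 * κ + 1)
        = zs P Q 6 + (b2i (c κ) - b2i (c' κ)) := by
      have : zs (seq P c) (seq Q c') (6 + 2 * κ + 1) = zs (seq P c) (seq Q c') (6 + 2 * κ)
        + (b2i (seq P c (6 + 2 * κ)) - b2i (seq Q c' (6 + 2 * κ))) := by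
        unfold zs
        rw [Finset.sum_range_succ]
      rw [this, z0, s0, s0]
    generalize zs P Q 6 = z at *
    cases hck : c κ with
    | true =>
      have hck' : c' κ = false := by
        cases hx : c' κ
        · rfl
        · exact absurd (hck.trans hx.symm) hκ
      rw [if_pos rfl]
      by_cases hz : z % 2 = a
      · rw [if_pos hz, add_zero]
        refine ⟨by rw [s0, s0, hck, hck']; simp, ?_⟩
        unfold wm
        rw [s0, hck, if_pos rfl, z0]
        exact hz
      · rw [if_neg hz]
        refine ⟨by rw [s1, s1, hck, hck']; simp, ?_⟩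
        unfold wm
        rw [s1, hck, if_pos rfl, z1, hck, hck']
        simp only [b2i]
        norm_num
        omega
    | false =>
      have hck' : c' κ = true := by
        cases hx : c' κ
        · exact absurd (hck.trans hx.symm) hκ
        · rfl
      rw [if_neg (by simp)]
      by_cases hz : z % 2 = a
      · rw [if_pos hz]
        refine ⟨by rw [s1, s1, hck, hck']; simp, ?_⟩
        unfold wm
        rw [s1, hck, if_neg (by simp), z1, hck, hck']
        simp only [b2i]
        norm_num
        omega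
      · rw [if_neg hz, add_zero]
        refine ⟨by rw [s0, s0, hck, hck']; simp, ?_⟩
        unfold wm
        rw [s0, hck, if_neg (by simp), z0]
        omega

/-- Twice the expected sweeping step. -/
def score (P Q : ℕ → Bool) (a : ℤ) : ℕ :=
  match (List.range 6).find? (fun k => decide (Trav P Q a k)) with
  | some k => 2 * k
  | none => 17

/-- `0` if the half circle `a` is swept during the pattern phase and `4` otherwise. -/
def slope (P Q : ℕ → Bool) (a : ℤ) : ℕ :=
  match (List.range 6).find? (fun k => decide (Trav P Q a k)) with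
  | some _ => 0
  | none => 4

theorem slope_le (P Q : ℕ → Bool) (a : ℤ) : slope P Q a ≤ score P Q a := by
  unfold slope score
  cases (List.range 6).find? (fun k => decide (Trav P Q a k)) <;> simp

theorem NN_sum (P Q : ℕ → Bool) (a : ℤ) (κ : ℕ) :
    ((NN P Q a κ true : ℕ) : ℝ) + (NN P Q a κ false : ℕ)
      = ((score P Q a : ℝ) - slope P Q a) + slope P Q a * κ := by
  unfold NN score slope
  cases (List.range 6).find? (fun k => decide (Trav P Q a k)) with
  | some k => simp; ring
  | none =>
    by_cases hz : zs P Q 6 % 2 = a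
    · simp [hz]; ring
    · simp [hz]; ring

/-- total score of a pair of patterns -/
def tscore (P Q : ℕ → Bool) : ℕ := score P Q 0 + score P Q 1

/-- bound for the relative pay-off -/
noncomputable def GG (P Q : ℕ → Bool) (κ : ℕ) (σ : Bool) : ℝ :=
  ((NN P Q 0 κ σ : ℝ) + (NN P Q 1 κ σ : ℝ) + 1) / 8

theorem rel_seq_le (P Q c c' : ℕ → Bool) (κ : ℕ) (hc : ∀ j < κ, c j = c' j)
    (hκ : c κ ≠ c' κ) :
    rel (1 / 4) (seq P c) (seq Q c') ≤ ENNReal.ofReal (GG P Q κ (c κ)) :=
  rel_quarter_le _ _ _ _ (NN_trav P Q c c' κ hc hκ 0 (Or.inl rfl))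
    (NN_trav P Q c c' κ hc hκ 1 (Or.inr rfl))

theorem GG_nonneg (P Q : ℕ → Bool) (κ : ℕ) (σ : Bool) : 0 ≤ GG P Q κ σ := by
  unfold GG; positivity

/-- The expectation over the coins of the first player of the bound. -/
theorem lintegral_GG (P Q : ℕ → Bool) (r : Bool) :
    ∫⁻ c, ∑' κ : ℕ, ENNReal.ofReal (GG P Q κ (xor r (c κ))) * (1 / 2 : ℝ≥0∞) ^ (κ + 1) ∂coins
      = ENNReal.ofReal ((2 + (tscore P Q : ℝ)) / 16) := by
  rw [lintegral_tsum]
  · have e : ∀ κ : ℕ, ∫⁻ c, ENNReal.ofReal (GG P Q κ (xor r (c κ)))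
        * (1 / 2 : ℝ≥0∞) ^ (κ + 1) ∂coins
        = ENNReal.ofReal ((2 + (tscore P Q : ℝ) - slope P Q 0 - slope P Q 1) / 16
            + ((slope P Q 0 : ℝ) + slope P Q 1) / 16 * κ) * (1 / 2 : ℝ≥0∞) ^ (κ + 1) := by
      intro κ
      rw [lintegral_coins_coord κ (fun σ => ENNReal.ofReal (GG P Q κ (xor r σ))
        * (1 / 2 : ℝ≥0∞) ^ (κ + 1))]
      rw [← add_mul, mul_right_comm]
      congr 1
      rw [← ENNReal.ofReal_add (GG_nonneg _ _ _ _) (GG_nonneg _ _ _ _)]
      have hh : (1 / 2 : ℝ≥0∞) = ENNReal.ofReal (1 / 2) := by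
        rw [ENNReal.ofReal_div_of_pos (by norm_num)]; simp
      rw [hh, ← ENNReal.ofReal_mul (add_nonneg (GG_nonneg _ _ _ _) (GG_nonneg _ _ _ _))]
      congr 1
      have h0 := NN_sum P Q 0 κ
      have h1 := NN_sum P Q 1 κ
      have hsum : GG P Q κ (xor r true) + GG P Q κ (xor r false)
          = GG P Q κ true + GG P Q κ false := by
        cases r
        · simp
        · simp [add_comm]
      rw [hsum]
      unfold GG tscore
      push_cast
      linarith
    simp_rw [e]
    have hs0 : (slope P Q 0 : ℝ) ≤ score P Q 0 := by exact_mod_cast slope_le P Q 0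
    have hs1 : (slope P Q 1 : ℝ) ≤ score P Q 1 := by exact_mod_cast slope_le P Q 1
    rw [tsum_affine]
    · congr 1
      ring
    · unfold tscore
      push_cast
      apply div_nonneg _ (by norm_num)
      linarith
    · positivity
  · intro κ
    have hm : Measurable fun c : ℕ → Bool => c κ := measurable_pi_apply κ
    have h2 : Measurable fun σ : Bool => ENNReal.ofReal (GG P Q κ (xor r σ))
        * (1 / 2 : ℝ≥0∞) ^ (κ + 1) := measurable_of_countable _
    exact (h2.comp hm).aemeasurable

end Pool.Agent.H576R2.Rdv
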