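import Mathlib

/-!
# Symmetric rendezvous on the circle: definitions

The circle is `UnitAddCircle = ℝ / ℤ` with its arc-length metric and its normalised Haar
measure `volume` (total mass one).
-/

open MeasureTheory Set
open scoped NNReal ENNReal

namespace Pool.Agent.H576R2.Rdv

/-- Pure strategies: 1-Lipschitz maps `s : [0,∞) → ℝ/ℤ` with `s 0 = 0`. -/
def PureStrategy : Type :=
  {s : C(ℝ≥0, UnitAddCircle) // LipschitzWith 1 s ∧ s 0 = 0}

/-- The compact-open topology on pure strategies. -/
instance : TopologicalSpace PureStrategy :=
  inferInstanceAs (TopologicalSpace {s : C(ℝ≥0, UnitAddCircle) // LipschitzWith 1 s ∧ s 0 = 0})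

instance : T2Space PureStrategy :=
  inferInstanceAs (T2Space {s : C(ℝ≥0, UnitAddCircle) // LipschitzWith 1 s ∧ s 0 = 0})

/-- The Borel sigma-algebra on pure strategies. -/
instance : MeasurableSpace PureStrategy := borel PureStrategy

instance : BorelSpace PureStrategy := ⟨rfl⟩

/-- The meeting time of two paths: the infimum (a minimum for continuous paths, `∞` if the paths
never meet) of the times `t` with `p t = q t`. -/
noncomputable def meet (p q : ℝ≥0 → UnitAddCircle) : ℝ≥0∞ :=
  ⨅ (t : ℝ≥0) (_ : p t = q t), (t : ℝ≥0∞)

/-- The path of a player using `s` and placed by the isometry `x ↦ a + x` (if `r = false`) or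
`x ↦ a - x` (if `r = true`) of the circle. -/
noncomputable def place (a : UnitAddCircle) (r : Bool) (s : PureStrategy) (t : ℝ≥0) :
    UnitAddCircle :=
  a + (if r then -(s.1 t) else s.1 t)

/-- Expected meeting time of two pure strategies when the two players are placed independently
by uniformly random rotations (the directed circle, group `G₂`). -/
noncomputable def payDirected (s₁ s₂ : PureStrategy) : ℝ≥0∞ :=
  ∫⁻ a₁ : UnitAddCircle, ∫⁻ a₂ : UnitAddCircle, meet (place a₁ false s₁) (place a₂ false s₂)

/-- Expected meeting time of two pure strategies when the two players are placed independently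
by uniformly random isometries of the circle (the undirected circle, group `G₃`): the rotation
part is uniform and the player is reflected with probability one half. -/
noncomputable def payUndirected (s₁ s₂ : PureStrategy) : ℝ≥0∞ :=
  (∑ r₁ : Bool, ∑ r₂ : Bool,
    ∫⁻ a₁ : UnitAddCircle, ∫⁻ a₂ : UnitAddCircle, meet (place a₁ r₁ s₁) (place a₂ r₂ s₂)) / 4

/-- Expected meeting time of two independent players using the mixed strategies `μ₁`, `μ₂`. -/
noncomputable def expected (pay : PureStrategy → PureStrategy → ℝ≥0∞)
    (μ₁ μ₂ : Measure PureStrategy) : ℝ≥0∞ :=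
  ∫⁻ s₁, ∫⁻ s₂, pay s₁ s₂ ∂μ₂ ∂μ₁

/-- `μ` is an optimal symmetric (mixed) strategy: it is a probability measure on pure strategies
and minimises the expected meeting time of two players both using it. -/
def IsOptimalSymmetric (pay : PureStrategy → PureStrategy → ℝ≥0∞)
    (μ : Measure PureStrategy) : Prop :=
  IsProbabilityMeasure μ ∧
    ∀ ν : Measure PureStrategy, IsProbabilityMeasure ν → expected pay μ μ ≤ expected pay ν ν

/-- Velocity `+1` or `-1`. -/
noncomputable def dir (b : Bool) : ℝ := if b then 1 else -1

/-- Displacement at time `t` of the walker who travels at unit speed in direction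
`dir (b k)` during the time interval `[k h, (k+1) h]`, `k = 0, 1, 2, …`. -/
noncomputable def lift (h : ℝ) (b : ℕ → Bool) (t : ℝ) : ℝ :=
  ∫ u in (0 : ℝ)..t, dir (b ⌊u / h⌋₊)

theorem measurable_vel (h : ℝ) (b : ℕ → Bool) : Measurable fun u : ℝ => dir (b ⌊u / h⌋₊) := by
  have h1 : Measurable fun n : ℕ => dir (b n) := measurable_from_top
  exact h1.comp ((Nat.measurable_floor).comp (measurable_id.div_const h))

theorem abs_dir (b : Bool) : |dir b| = 1 := by
  cases b <;> simp [dir]

theorem intervalIntegrable_vel (h : ℝ) (b : ℕ → Bool) (x y : ℝ) :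
    IntervalIntegrable (fun u : ℝ => dir (b ⌊u / h⌋₊)) volume x y := by
  refine (intervalIntegrable_const (c := (1 : ℝ))).mono_fun
    (measurable_vel h b).aestronglyMeasurable ?_
  filter_upwards with u
  simp [abs_dir]

theorem lift_sub_lift (h : ℝ) (b : ℕ → Bool) (x y : ℝ) :
    lift h b y - lift h b x = ∫ u in x..y, dir (b ⌊u / h⌋₊) := by
  unfold lift
  rw [intervalIntegral.integral_interval_sub_left (intervalIntegrable_vel h b 0 y)
    (intervalIntegrable_vel h b 0 x)]

theorem abs_lift_sub_lift_le (h : ℝ) (b : ℕ → Bool) (x y : ℝ) :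
    |lift h b y - lift h b x| ≤ |y - x| := by
  rw [lift_sub_lift]
  have := intervalIntegral.norm_integral_le_of_norm_le_const (a := x) (b := y) (C := 1)
    (f := fun u : ℝ => dir (b ⌊u / h⌋₊)) (fun u _ => by simp [abs_dir])
  simpa using this

theorem lift_lipschitz (h : ℝ) (b : ℕ → Bool) : LipschitzWith 1 (lift h b) :=
  LipschitzWith.of_dist_le_mul fun x y => by
    rw [Real.dist_eq, Real.dist_eq]
    simpa using abs_lift_sub_lift_le h b y x

theorem coe_lipschitz : LipschitzWith 1 (fun x : ℝ => (x : UnitAddCircle)) :=
  LipschitzWith.of_dist_le_mul fun x y => by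
    rw [dist_eq_norm, dist_eq_norm, ← AddCircle.coe_sub]
    simpa using (QuotientAddGroup.norm_mk_le_norm (S := AddSubgroup.zmultiples (1 : ℝ))
      (m := x - y))

theorem nnreal_coe_lipschitz : LipschitzWith 1 (fun t : ℝ≥0 => (t : ℝ)) :=
  LipschitzWith.of_dist_le_mul fun x y => by simp [NNReal.dist_eq, Real.dist_eq]

/-- The pure strategy of the walker who travels at unit speed in direction `dir (b k)` during
the time interval `[k h, (k+1) h]`, `k = 0, 1, 2, …`. -/
noncomputable def walk (h : ℝ) (b : ℕ → Bool) : PureStrategy :=
  ⟨⟨fun t => ((lift h b t : ℝ) : UnitAddCircle),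
    coe_lipschitz.continuous.comp ((lift_lipschitz h b).continuous.comp
      nnreal_coe_lipschitz.continuous)⟩,
   by
    constructor
    · have := (coe_lipschitz.comp (lift_lipschitz h b)).comp nnreal_coe_lipschitz
      rw [one_mul, one_mul] at this
      exact this
    · simp [lift]⟩

/-- An infinite sequence of independent fair coin tosses. -/
noncomputable def coins : Measure (ℕ → Bool) :=
  Measure.infinitePi fun _ : ℕ => (PMF.uniformOfFintype Bool).toMeasure

/-- CO-HA-TO (coin half tour): on each time interval `[k/2, (k+1)/2]` travel half the circle at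
unit speed in the direction given by the `k`-th of a sequence of independent fair coin tosses. -/
noncomputable def cohato : Measure PureStrategy :=
  Measure.map (walk (1 / 2)) coins

end Pool.Agent.H576R2.Rdv
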