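import Pool.Agent.H576R2.RdvStar2

open MeasureTheory Set
open scoped NNReal ENNReal

namespace Pool.Agent.H576R2.Rdv

/-- Each coin is used for two quarter steps. -/
def dbl (c : ℕ → Bool) (j : ℕ) : Bool := c (j / 2)

theorem lift_half_eq (c : ℕ → Bool) (t : ℝ) :
    lift (1 / 2) c t = lift (1 / 4) (dbl c) t := by
  unfold lift
  apply intervalIntegral.integral_congr
  intro u _
  have : ⌊u / (1 / 2)⌋₊ = ⌊u / (1 / 4)⌋₊ / 2 := by
    rw [← Nat.floor_div_ofNat]
    congr 1
    norm_num
    ring
  simp only [dbl, this]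

theorem walk_half_eq (c : ℕ → Bool) : walk (1 / 2) c = walk (1 / 4) (dbl c) := by
  apply Subtype.ext
  ext t
  simp only [walk_apply]
  rw [lift_half_eq c t]

theorem rel_half_eq (b c : ℕ → Bool) : rel (1 / 2) b c = rel (1 / 4) (dbl b) (dbl c) := by
  unfold rel
  rw [walk_half_eq, walk_half_eq]

theorem rel_half_le (b b' : ℕ → Bool) (k : ℕ) (hagree : ∀ j < k, b j = b' j)
    (hk : b k ≠ b' k) : rel (1 / 2) b b' ≤ ENNReal.ofReal (1 / 4 + 1 / 2 * k) := by
  rw [rel_half_eq]
  have z0 : zs (dbl b) (dbl b') (2 * k) = 0 := by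
    unfold zs
    refine Finset.sum_eq_zero fun j hj => ?_
    have hj2 : j / 2 < k := by have := Finset.mem_range.mp hj; omega
    simp [dbl, hagree _ hj2]
  have s0 : ∀ e : ℕ → Bool, dbl e (2 * k) = e k := by
    intro e; simp [dbl]
  have s1 : ∀ e : ℕ → Bool, dbl e (2 * k + 1) = e k := by
    intro e
    have : (2 * k + 1) / 2 = k := by omega
    simp [dbl, this]
  have z1 : zs (dbl b) (dbl b') (2 * k + 1) = b2i (b k) - b2i (b' k) := by
    have : zs (dbl b) (dbl b') (2 * k + 1) = zs (dbl b) (dbl b') (2 * k)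
        + (b2i (dbl b (2 * k)) - b2i (dbl b' (2 * k))) := by
      unfold zs
      rw [Finset.sum_range_succ]
    rw [this, z0, s0, s0, zero_add]
  cases hb : b k with
  | true =>
    have hb' : b' k = false := by
      cases hx : b' k
      · rfl
      · exact absurd (hb.trans hx.symm) hk
    have t0 : Trav (dbl b) (dbl b') 0 (2 * k) := by
      refine ⟨by rw [s0, s0, hb, hb']; simp, ?_⟩
      unfold wm
      rw [s0, hb, if_pos rfl, z0]
      rfl
    have t1 : Trav (dbl b) (dbl b') 1 (2 * k + 1) := by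
      refine ⟨by rw [s1, s1, hb, hb']; simp, ?_⟩
      unfold wm
      rw [s1, hb, if_pos rfl, z1, hb, hb']
      simp [b2i]
    refine (rel_quarter_le _ _ _ _ t0 t1).trans (le_of_eq ?_)
    congr 1
    push_cast
    ring
  | false =>
    have hb' : b' k = true := by
      cases hx : b' k
      · exact absurd (hb.trans hx.symm) hk
      · rfl
    have t1 : Trav (dbl b) (dbl b') 1 (2 * k) := by
      refine ⟨by rw [s0, s0, hb, hb']; simp, ?_⟩
      unfold wm
      rw [s0, hb, if_neg (by simp), z0]
      rfl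
    have t0 : Trav (dbl b) (dbl b') 0 (2 * k + 1) := by
      refine ⟨by rw [s1, s1, hb, hb']; simp, ?_⟩
      unfold wm
      rw [s1, hb, if_neg (by simp), z1, hb, hb']
      simp [b2i]
    refine (rel_quarter_le _ _ _ _ t0 t1).trans (le_of_eq ?_)
    congr 1
    push_cast
    ring

theorem cohato_dominated (b : ℕ → Bool) (r : Bool) :
    ∃ g : (ℕ → Bool) → ℝ≥0∞, Measurable g ∧
      (∀ᵐ c ∂coins, rel (1 / 2) b (fun j => xor r (c j)) ≤ g c) ∧
      ∫⁻ c, g c ∂coins = ENNReal.ofReal (3 / 4) := by
  obtain ⟨g, h1, h2, h3⟩ := coins_dominated (fun j => xor r (b j))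
    (fun c => rel (1 / 2) b (fun j => xor r (c j)))
    (fun k => ENNReal.ofReal (1 / 4 + 1 / 2 * k)) (by
      rintro k c ⟨h1, h2⟩
      apply rel_half_le
      · intro j hj
        rw [h1 j hj]
        simp
      · intro hcon
        apply h2
        simp only [hcon]
        simp)
  refine ⟨g, h1, h2, ?_⟩
  rw [h3, tsum_affine (by norm_num) (by norm_num)]
  norm_num

theorem ofReal_three_quarters : ENNReal.ofReal (3 / 4) = 3 / 4 := by
  rw [ENNReal.ofReal_div_of_pos (by norm_num)]
  simp

theorem ofReal_star : ENNReal.ofReal (299 / 400) = 299 / 400 := by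
  rw [ENNReal.ofReal_div_of_pos (by norm_num)]
  simp

theorem cohato_directed : expected payDirected cohato cohato = 3 / 4 := by
  rw [← ofReal_three_quarters]
  refine le_antisymm ?_ cohato_directed_lower
  unfold expected
  rw [lintegral_cohato]
  have h1 : ∀ b : ℕ → Bool,
      ∫⁻ s₂, payDirected (walk (1 / 2) b) s₂ ∂cohato ≤ ENNReal.ofReal (3 / 4) := by
    intro b
    rw [lintegral_cohato]
    simp_rw [payDirected_walk]
    obtain ⟨g, _, h2, h3⟩ := cohato_dominated b false
    rw [← h3]
    refine lintegral_mono_ae ?_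
    filter_upwards [h2] with c hc
    simpa using hc
  calc _ ≤ ∫⁻ _ : ℕ → Bool, ENNReal.ofReal (3 / 4) ∂coins := lintegral_mono h1
    _ = _ := by simp

theorem cohato_undirected : expected payUndirected cohato cohato = 3 / 4 := by
  rw [← ofReal_three_quarters]
  refine le_antisymm ?_ cohato_undirected_lower
  unfold expected
  rw [lintegral_cohato]
  have h1 : ∀ b : ℕ → Bool,
      ∫⁻ s₂, payUndirected (walk (1 / 2) b) s₂ ∂cohato ≤ ENNReal.ofReal (3 / 4) := by
    intro b
    rw [lintegral_cohato]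
    simp_rw [payUndirected_walk]
    have hdom := fun r₁ r₂ : Bool => cohato_dominated (fun j => xor r₁ (b j)) r₂
    choose g hg1 hg2 hg3 using hdom
    have hle : ∀ᵐ c ∂coins, (∑ r₁ : Bool, ∑ r₂ : Bool,
        rel (1 / 2) (fun j => xor r₁ (b j)) (fun j => xor r₂ (c j))) / 4
        ≤ (∑ r₁ : Bool, ∑ r₂ : Bool, g r₁ r₂ c) * 4⁻¹ := by
      filter_upwards [hg2 true true, hg2 true false, hg2 false true, hg2 false false]
        with c h1 h2 h3 h4
      rw [div_eq_mul_inv]
      simp only [Fintype.sum_bool]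
      gcongr
    refine (lintegral_mono_ae hle).trans (le_of_eq ?_)
    rw [lintegral_mul_const' _ _ (by simp)]
    rw [lintegral_finsetSum _ (fun r₁ _ => Finset.measurable_sum _ fun r₂ _ => hg1 r₁ r₂)]
    have e : ∀ r₁ : Bool, ∫⁻ c, ∑ r₂ : Bool, g r₁ r₂ c ∂coins
        = ENNReal.ofReal (3 / 2) := by
      intro r₁
      rw [lintegral_finsetSum _ (fun r₂ _ => hg1 r₁ r₂)]
      simp only [hg3, Fintype.sum_bool]
      rw [← ENNReal.ofReal_add (by norm_num) (by norm_num)]
      norm_num
    rw [Finset.sum_congr rfl (fun r₁ _ => e r₁), Fintype.sum_bool]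
    rw [← ENNReal.ofReal_add (by norm_num) (by norm_num)]
    have h6 : (4⁻¹ : ℝ≥0∞) = ENNReal.ofReal (1 / 4) := by
      rw [ENNReal.ofReal_div_of_pos (by norm_num)]; simp
    rw [h6, ← ENNReal.ofReal_mul (by norm_num)]
    norm_num
  calc _ ≤ ∫⁻ _ : ℕ → Bool, ENNReal.ofReal (3 / 4) ∂coins := lintegral_mono h1
    _ = _ := by simp

theorem star_lt : (299 / 400 : ℝ≥0∞) < 3 / 4 := by
  rw [← ofReal_three_quarters, ← ofReal_star, ENNReal.ofReal_lt_ofReal_iff (by norm_num)]
  norm_num

theorem directed_not_optimal :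
    IsProbabilityMeasure cohato ∧ expected payDirected cohato cohato = 3 / 4 ∧
      (∃ ν : Measure PureStrategy, IsProbabilityMeasure ν ∧
        expected payDirected ν ν ≤ 299 / 400) ∧
      ¬ IsOptimalSymmetric payDirected cohato := by
  have hstar : expected payDirected star star ≤ 299 / 400 := by
    rw [← ofReal_star]; exact star_directed_upper
  refine ⟨inferInstance, cohato_directed, ⟨star, inferInstance, hstar⟩, ?_⟩
  rintro ⟨_, h⟩
  have := h star inferInstance
  rw [cohato_directed] at this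
  exact absurd (this.trans hstar) (not_le.mpr star_lt)

theorem undirected_not_optimal :
    IsProbabilityMeasure cohato ∧ expected payUndirected cohato cohato = 3 / 4 ∧
      (∃ ν : Measure PureStrategy, IsProbabilityMeasure ν ∧
        expected payUndirected ν ν ≤ 299 / 400) ∧
      ¬ IsOptimalSymmetric payUndirected cohato := by
  have hstar : expected payUndirected star star ≤ 299 / 400 := by
    rw [← ofReal_star]; exact star_undirected_upper
  refine ⟨inferInstance, cohato_undirected, ⟨star, inferInstance, hstar⟩, ?_⟩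
  rintro ⟨_, h⟩
  have := h star inferInstance
  rw [cohato_undirected] at this
  exact absurd (this.trans hstar) (not_le.mpr star_lt)

end Pool.Agent.H576R2.Rdv
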