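import Pool.Agent.H576R2.RdvProb

open MeasureTheory Set
open scoped NNReal ENNReal

namespace Pool.Agent.H576R2.Rdv

theorem place_eq_iff (h : ℝ) (x : ℝ) (b b' : ℕ → Bool) (t : ℝ≥0) :
    place (x : UnitAddCircle) false (walk h b) t = place 0 false (walk h b') t ↔
      ∃ n : ℤ, (n : ℝ) = x + lift h b t - lift h b' t := by
  rw [← coe_eq_zero_iff_int]
  simp only [place, walk_apply, Bool.false_eq_true, if_false, zero_add]
  rw [AddCircle.coe_sub, AddCircle.coe_add, sub_eq_zero]

theorem meet_le (h : ℝ) (x : ℝ) (b b' : ℕ → Bool) (t : ℝ) (ht : 0 ≤ t) (n : ℤ)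
    (hn : (n : ℝ) = x + lift h b t - lift h b' t) :
    meet (place (x : UnitAddCircle) false (walk h b)) (place 0 false (walk h b'))
      ≤ ENNReal.ofReal t := by
  unfold meet
  have := (place_eq_iff h x b b' ⟨t, ht⟩).mpr ⟨n, hn⟩
  refine (iInf₂_le (⟨t, ht⟩ : ℝ≥0) this).trans (le_of_eq ?_)
  rw [ENNReal.ofReal_eq_coe_nnreal ht]
  rfl

theorem le_meet (h : ℝ) (x L : ℝ) (b b' : ℕ → Bool)
    (hL : ∀ t : ℝ, 0 ≤ t → t < L → ∀ n : ℤ, (n : ℝ) ≠ x + lift h b t - lift h b' t) :
    ENNReal.ofReal L ≤
      meet (place (x : UnitAddCircle) false (walk h b)) (place 0 false (walk h b')) := by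
  unfold meet
  refine le_iInf₂ fun t ht => ?_
  obtain ⟨n, hn⟩ := (place_eq_iff h x b b' t).mp ht
  by_contra hcon
  push Not at hcon
  rw [ENNReal.ofReal, ENNReal.coe_lt_coe, Real.lt_toNNReal_iff_coe_lt] at hcon
  exact hL t t.coe_nonneg hcon n hn

theorem lintegral_affine (p q y w : ℝ) (hw : 0 ≤ w) (hnn : ∀ x ∈ Ioc y (y + w), 0 ≤ p + q * x) :
    ∫⁻ x in Ioc y (y + w), ENNReal.ofReal (p + q * x)
      = ENNReal.ofReal (p * w + q * (y * w + w ^ 2 / 2)) := by
  have hcont : Continuous fun x : ℝ => p + q * x := by fun_prop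
  rw [← ofReal_integral_eq_lintegral_ofReal]
  · congr 1
    rw [← intervalIntegral.integral_of_le (by linarith)]
    rw [intervalIntegral.integral_add intervalIntegrable_const
      (by apply Continuous.intervalIntegrable; fun_prop)]
    rw [intervalIntegral.integral_const_mul, integral_id, intervalIntegral.integral_const]
    simp
    ring
  · exact (hcont.integrableOn_Icc (a := y) (b := y + w)).mono_set Ioc_subset_Icc_self
  · rw [Filter.EventuallyLE, ae_restrict_iff' measurableSet_Ioc]
    exact Filter.Eventually.of_forall hnn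

/-- Lower bound for two half-tour walkers who first differ at index `k`. -/
theorem le_rel_half (b b' : ℕ → Bool) (k : ℕ) (hagree : ∀ j < k, b j = b' j)
    (hk : b k ≠ b' k) : ENNReal.ofReal (1 / 4 + 1 / 2 * k) ≤ rel (1 / 2) b b' := by
  unfold rel
  have hzero : lift (1 / 2) b (k * (1 / 2)) - lift (1 / 2) b' (k * (1 / 2)) = 0 := by
    rw [lift_eq_of_agree (by norm_num) hagree (by positivity) le_rfl, sub_self]
  have hD0 : ∀ t : ℝ, 0 ≤ t → t ≤ k * (1 / 2) → lift (1 / 2) b t - lift (1 / 2) b' t = 0 := by
    intro t h0 h1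
    rw [lift_eq_of_agree (by norm_num) hagree h0 h1, sub_self]
  have hD1 : ∀ u : ℝ, 0 ≤ u → u ≤ 1 / 2 →
      lift (1 / 2) b (k * (1 / 2) + u) - lift (1 / 2) b' (k * (1 / 2) + u)
        = (dir (b k) - dir (b' k)) * u := by
    intro u h0 h1
    rw [lift_add (by norm_num) b k h0 h1, lift_add (by norm_num) b' k h0 h1]
    linarith
  cases hbk : b k with
  | true =>
    have hbk' : b' k = false := by
      cases hx : b' k
      · rfl
      · exact absurd (hbk.trans hx.symm) hk
    have hdir : dir (b k) - dir (b' k) = 2 := by rw [hbk, hbk']; norm_num [dir]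
    have hint : ∫⁻ x in Ioc (0 : ℝ) 1, ENNReal.ofReal ((k / 2 + 1 / 2) + (-1 / 2) * x)
        = ENNReal.ofReal (1 / 4 + 1 / 2 * k) := by
      have := lintegral_affine (k / 2 + 1 / 2) (-1 / 2) 0 1 (by norm_num) (by
        intro x hx
        have : (0 : ℝ) ≤ k := k.cast_nonneg
        have h1 : x ≤ 1 := by simpa using hx.2
        linarith)
      rw [zero_add] at this
      rw [this]
      congr 1
      ring
    rw [← hint]
    refine lintegral_mono_ae ?_
    have hne : ∀ᵐ x : ℝ, x ≠ 1 := by
      simpa using (countable_singleton (1 : ℝ)).ae_notMem volume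
    rw [ae_restrict_iff' measurableSet_Ioc]
    filter_upwards [hne] with x hx1 hx
    have hx0 : 0 < x := hx.1
    have hxlt : x < 1 := lt_of_le_of_ne hx.2 hx1
    apply le_meet
    intro t ht0 htL n hn
    rcases le_or_gt t (k * (1 / 2)) with hle | hgt
    · have := hD0 t ht0 hle
      have hnx : (n : ℝ) = x := by linarith
      have h1 : (0 : ℝ) < n := by rw [hnx]; exact hx0
      have h2 : (n : ℝ) < 1 := by rw [hnx]; exact hxlt
      have h3 : 0 < n := by exact_mod_cast h1
      have h4 : n < 1 := by exact_mod_cast h2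
      omega
    · have hu := hD1 (t - k * (1 / 2)) (by linarith) (by linarith)
      rw [hdir, show (k : ℝ) * (1 / 2) + (t - k * (1 / 2)) = t by ring] at hu
      have hnx : (n : ℝ) = x + 2 * (t - k * (1 / 2)) := by linarith
      have h1 : (0 : ℝ) < n := by rw [hnx]; linarith
      have h2 : (n : ℝ) < 1 := by rw [hnx]; linarith
      have h3 : 0 < n := by exact_mod_cast h1
      have h4 : n < 1 := by exact_mod_cast h2
      omega
  | false =>
    have hbk' : b' k = true := by
      cases hx : b' k
      · exact absurd (hbk.trans hx.symm) hk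
      · rfl
    have hdir : dir (b k) - dir (b' k) = -2 := by rw [hbk, hbk']; norm_num [dir]
    have hint : ∫⁻ x in Ioc (0 : ℝ) 1, ENNReal.ofReal ((k / 2) + (1 / 2) * x)
        = ENNReal.ofReal (1 / 4 + 1 / 2 * k) := by
      have := lintegral_affine (k / 2) (1 / 2) 0 1 (by norm_num) (by
        intro x hx
        have : (0 : ℝ) ≤ k := k.cast_nonneg
        have h1 : 0 < x := by simpa using hx.1
        linarith)
      rw [zero_add] at this
      rw [this]
      congr 1
      ring
    rw [← hint]
    refine lintegral_mono_ae ?_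
    have hne : ∀ᵐ x : ℝ, x ≠ 1 := by
      simpa using (countable_singleton (1 : ℝ)).ae_notMem volume
    rw [ae_restrict_iff' measurableSet_Ioc]
    filter_upwards [hne] with x hx1 hx
    have hx0 : 0 < x := hx.1
    have hxlt : x < 1 := lt_of_le_of_ne hx.2 hx1
    apply le_meet
    intro t ht0 htL n hn
    rcases le_or_gt t (k * (1 / 2)) with hle | hgt
    · have := hD0 t ht0 hle
      have hnx : (n : ℝ) = x := by linarith
      have h1 : (0 : ℝ) < n := by rw [hnx]; exact hx0
      have h2 : (n : ℝ) < 1 := by rw [hnx]; exact hxlt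
      have h3 : 0 < n := by exact_mod_cast h1
      have h4 : n < 1 := by exact_mod_cast h2
      omega
    · have hu := hD1 (t - k * (1 / 2)) (by linarith) (by linarith)
      rw [hdir, show (k : ℝ) * (1 / 2) + (t - k * (1 / 2)) = t by ring] at hu
      have hnx : (n : ℝ) = x - 2 * (t - k * (1 / 2)) := by linarith
      have h1 : (0 : ℝ) < n := by rw [hnx]; linarith
      have h2 : (n : ℝ) < 1 := by rw [hnx]; linarith
      have h3 : 0 < n := by exact_mod_cast h1
      have h4 : n < 1 := by exact_mod_cast h2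
      omega

/-- For every fixed `b`, averaging over an independent half-tour walker gives at least `3/4`. -/
theorem cohato_lower (b : ℕ → Bool) (r : Bool) :
    ENNReal.ofReal (3 / 4) ≤
      ∫⁻ c, rel (1 / 2) b (fun j => xor r (c j)) ∂coins := by
  have h := le_lintegral_coins (fun j => xor r (b j))
    (fun c => rel (1 / 2) b (fun j => xor r (c j)))
    (fun k => ENNReal.ofReal (1 / 4 + 1 / 2 * k)) (by
      rintro k c ⟨h1, h2⟩
      apply le_rel_half
      · intro j hj
        rw [h1 j hj]
        simp
      · intro hcon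
        apply h2
        simp only [hcon]
        simp)
  refine le_trans (le_of_eq ?_) h
  rw [tsum_affine (by norm_num) (by norm_num)]
  norm_num

end Pool.Agent.H576R2.Rdv
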