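import Pool.Agent.H576R2.RdvComb

open MeasureTheory Set
open scoped NNReal ENNReal

namespace Pool.Agent.H576R2.Rdv

/-! ### CO-HA-TO -/

theorem walk_half_injective : Function.Injective (walk (1 / 2)) := by
  intro b b' hbb
  by_contra hne
  have hex : ∃ k, b k ≠ b' k := by
    by_contra hcon
    push Not at hcon
    exact hne (funext hcon)
  classical
  set k := Nat.find hex with hkdef
  have hk : b k ≠ b' k := Nat.find_spec hex
  have hagree : ∀ j < k, b j = b' j := fun j hj => by simpa using Nat.find_min hex hj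
  have h1 := congrArg (fun s : PureStrategy => s.1 (⟨k * (1 / 2) + 1 / 4, by positivity⟩ : ℝ≥0)) hbb
  have h2 : ((lift (1 / 2) b (k * (1 / 2) + 1 / 4) : ℝ) : UnitAddCircle)
      = ((lift (1 / 2) b' (k * (1 / 2) + 1 / 4) : ℝ) : UnitAddCircle) := h1
  rw [← sub_eq_zero, ← AddCircle.coe_sub, coe_eq_zero_iff_int] at h2
  obtain ⟨n, hn⟩ := h2
  rw [lift_add (by norm_num) b k (by norm_num) (by norm_num),
    lift_add (by norm_num) b' k (by norm_num) (by norm_num),
    lift_eq_of_agree (by norm_num) hagree (by positivity) le_rfl] at hn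
  have h3 : (4 : ℝ) * n = dir (b k) - dir (b' k) := by linarith
  cases hb : b k <;> cases hb' : b' k
  · exact hk (hb.trans hb'.symm)
  · rw [hb, hb'] at h3
    simp only [dir, Bool.false_eq_true, if_false, if_true] at h3
    have h4 : (4 : ℝ) * n = ((-2 : ℤ) : ℝ) := by rw [h3]; norm_num
    have h5 : (4 : ℤ) * n = -2 := by exact_mod_cast h4
    omega
  · rw [hb, hb'] at h3
    simp only [dir, Bool.false_eq_true, if_false, if_true] at h3
    have h4 : (4 : ℝ) * n = ((2 : ℤ) : ℝ) := by rw [h3]; norm_num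
    have h5 : (4 : ℤ) * n = 2 := by exact_mod_cast h4
    omega
  · exact hk (hb.trans hb'.symm)

theorem walk_half_embedding : MeasurableEmbedding (walk (1 / 2)) :=
  ((continuous_walk (by norm_num)).isClosedEmbedding walk_half_injective).measurableEmbedding

instance : IsProbabilityMeasure cohato := by
  unfold cohato
  exact Measure.isProbabilityMeasure_map (continuous_walk (by norm_num)).measurable.aemeasurable

theorem lintegral_cohato (F : PureStrategy → ℝ≥0∞) :
    ∫⁻ s, F s ∂cohato = ∫⁻ b, F (walk (1 / 2) b) ∂coins :=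
  walk_half_embedding.lintegral_map F

theorem payDirected_walk (h : ℝ) (b b' : ℕ → Bool) :
    payDirected (walk h b) (walk h b') = rel h b b' :=
  lintegral_place h b b'

theorem payUndirected_walk (h : ℝ) (b b' : ℕ → Bool) :
    payUndirected (walk h b) (walk h b') =
      (∑ r₁ : Bool, ∑ r₂ : Bool, rel h (fun j => xor r₁ (b j)) (fun j => xor r₂ (b' j))) / 4 := by
  unfold payUndirected
  congr 1
  refine Finset.sum_congr rfl fun r₁ _ => Finset.sum_congr rfl fun r₂ _ => ?_
  rw [← lintegral_place]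
  simp_rw [place_walk h _ r₁ b, place_walk h _ r₂ b']

theorem cohato_directed_lower :
    ENNReal.ofReal (3 / 4) ≤ expected payDirected cohato cohato := by
  unfold expected
  rw [lintegral_cohato]
  have h1 : ∀ b : ℕ → Bool, ENNReal.ofReal (3 / 4) ≤
      ∫⁻ s₂, payDirected (walk (1 / 2) b) s₂ ∂cohato := by
    intro b
    rw [lintegral_cohato]
    simp_rw [payDirected_walk]
    have := cohato_lower b false
    simpa using this
  calc ENNReal.ofReal (3 / 4) = ∫⁻ _ : ℕ → Bool, ENNReal.ofReal (3 / 4) ∂coins := by simp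
    _ ≤ _ := lintegral_mono h1

theorem cohato_undirected_lower :
    ENNReal.ofReal (3 / 4) ≤ expected payUndirected cohato cohato := by
  unfold expected
  rw [lintegral_cohato]
  have h1 : ∀ b : ℕ → Bool, ENNReal.ofReal (3 / 4) ≤
      ∫⁻ s₂, payUndirected (walk (1 / 2) b) s₂ ∂cohato := by
    intro b
    rw [lintegral_cohato]
    simp_rw [payUndirected_walk]
    have e : ∀ r₁ r₂ : Bool, ENNReal.ofReal (3 / 4) ≤
        ∫⁻ c, rel (1 / 2) (fun j => xor r₁ (b j)) (fun j => xor r₂ (c j)) ∂coins :=
      fun r₁ r₂ => cohato_lower (fun j => xor r₁ (b j)) r₂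
    simp only [Fintype.sum_bool, div_eq_mul_inv]
    have h4 : ∀ f : (ℕ → Bool) → ℝ≥0∞, (∫⁻ c, f c ∂coins) * 4⁻¹ ≤ ∫⁻ c, f c * 4⁻¹ ∂coins := by
      intro f
      have := lintegral_const_mul_le (μ := coins) (4⁻¹ : ℝ≥0∞) f
      simpa [mul_comm] using this
    refine le_trans ?_ (h4 _)
    have hsum := (add_le_add (add_le_add (e true true) (e true false))
      (add_le_add (e false true) (e false false)))
    have h5 := (hsum.trans (add_le_add (le_lintegral_add _ _) (le_lintegral_add _ _))).trans
      (le_lintegral_add _ _)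
    refine le_trans (le_of_eq ?_) (mul_le_mul_left h5 4⁻¹)
    rw [← ENNReal.ofReal_add (by norm_num) (by norm_num),
      ← ENNReal.ofReal_add (by norm_num) (by norm_num)]
    have h6 : (4⁻¹ : ℝ≥0∞) = ENNReal.ofReal (1 / 4) := by
      rw [ENNReal.ofReal_div_of_pos (by norm_num)]; simp
    rw [h6, ← ENNReal.ofReal_mul (by norm_num)]
    norm_num
  calc ENNReal.ofReal (3 / 4) = ∫⁻ _ : ℕ → Bool, ENNReal.ofReal (3 / 4) ∂coins := by simp
    _ ≤ _ := lintegral_mono h1

end Pool.Agent.H576R2.Rdv
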