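import Pool.Agent.H576R2.RdvDefs

open MeasureTheory Set
open scoped NNReal ENNReal

namespace Pool.Agent.H576R2.Rdv

theorem lift_zero (h : ℝ) (b : ℕ → Bool) : lift h b 0 = 0 := by simp [lift]

theorem lift_eq_of_agree {h : ℝ} (hh : 0 < h) {b b' : ℕ → Bool} {n : ℕ}
    (hb : ∀ j < n, b j = b' j) {t : ℝ} (ht0 : 0 ≤ t) (ht : t ≤ n * h) :
    lift h b t = lift h b' t := by
  unfold lift
  apply intervalIntegral.integral_congr_ae
  have hne : ∀ᵐ u : ℝ, u ≠ n * h := by
    simpa using (countable_singleton ((n : ℝ) * h)).ae_notMem volume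
  filter_upwards [hne] with u hu hmem
  rw [uIoc_of_le ht0] at hmem
  have hlt : u < n * h := lt_of_le_of_ne (hmem.2.trans ht) hu
  have hfl : ⌊u / h⌋₊ < n := by
    rw [Nat.floor_lt (div_nonneg hmem.1.le hh.le), div_lt_iff₀ hh]
    exact hlt
  rw [hb _ hfl]

theorem lift_add {h : ℝ} (hh : 0 < h) (b : ℕ → Bool) (k : ℕ) {u : ℝ} (hu0 : 0 ≤ u)
    (hu : u ≤ h) : lift h b (k * h + u) = lift h b (k * h) + dir (b k) * u := by
  have key : lift h b (k * h + u) - lift h b (k * h) = dir (b k) * u := by
    rw [lift_sub_lift]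
    have hle : (k : ℝ) * h ≤ k * h + u := by linarith
    have : ∫ v in (k * h : ℝ)..(k * h + u), dir (b ⌊v / h⌋₊)
        = ∫ v in (k * h : ℝ)..(k * h + u), dir (b k) := by
      apply intervalIntegral.integral_congr_ae
      have hne : ∀ᵐ v : ℝ, v ≠ (k + 1) * h := by
        simpa using (countable_singleton (((k : ℝ) + 1) * h)).ae_notMem volume
      filter_upwards [hne] with v hv hmem
      rw [uIoc_of_le hle] at hmem
      have hlt : v < (k + 1) * h := lt_of_le_of_ne (by linarith [hmem.2]) hv
      have hfl : ⌊v / h⌋₊ = k := by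
        rw [Nat.floor_eq_iff (div_nonneg (by nlinarith [hmem.1, hmem.2, k.cast_nonneg (α := ℝ)])
          hh.le), le_div_iff₀ hh, div_lt_iff₀ hh]
        exact ⟨hmem.1.le, hlt⟩
      rw [hfl]
    rw [this]
    simp [mul_comm]
  linarith

theorem lift_nat {h : ℝ} (hh : 0 < h) (b : ℕ → Bool) (k : ℕ) :
    lift h b (k * h) = h * ∑ j ∈ Finset.range k, dir (b j) := by
  induction k with
  | zero => simp [lift_zero]
  | succ k ih =>
    have := lift_add hh b k (u := h) hh.le le_rfl
    push_cast
    rw [add_mul, one_mul, this, ih, Finset.sum_range_succ]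
    ring

theorem dir_not (b : Bool) : dir (!b) = -dir b := by cases b <;> simp [dir]

theorem lift_not (h : ℝ) (b : ℕ → Bool) (t : ℝ) :
    lift h (fun j => !b j) t = -lift h b t := by
  unfold lift
  rw [← intervalIntegral.integral_neg]
  congr 1
  ext u
  exact dir_not _

theorem continuous_lift_uncurry {h : ℝ} (hh : 0 < h) :
    Continuous fun p : (ℕ → Bool) × ℝ≥0 => lift h p.1 (p.2 : ℝ) := by
  rw [continuous_iff_continuousAt]
  rintro ⟨b, t⟩
  obtain ⟨n, hn⟩ : ∃ n : ℕ, (t : ℝ) < n * h := by
    obtain ⟨n, hn⟩ := exists_nat_gt ((t : ℝ) / h)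
    exact ⟨n, by rwa [div_lt_iff₀ hh] at hn⟩
  have hc : ContinuousAt (fun p : (ℕ → Bool) × ℝ≥0 => lift h b (p.2 : ℝ)) (b, t) := by
    have : Continuous fun p : (ℕ → Bool) × ℝ≥0 => lift h b (p.2 : ℝ) :=
      (lift_lipschitz h b).continuous.comp (NNReal.continuous_coe.comp continuous_snd)
    exact this.continuousAt
  refine hc.congr ?_
  have h1 : ∀ᶠ p : (ℕ → Bool) × ℝ≥0 in nhds (b, t), ∀ j < n, p.1 j = b j := by
    have : ∀ j ∈ Finset.range n, ∀ᶠ p : (ℕ → Bool) × ℝ≥0 in nhds (b, t), p.1 j = b j := by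
      intro j _
      have hcj : Continuous fun p : (ℕ → Bool) × ℝ≥0 => p.1 j :=
        (continuous_apply j).comp continuous_fst
      have h0 : ∀ᶠ x in nhds (b j), x = b j := by simp [nhds_discrete]
      exact (hcj.tendsto (b, t)).eventually h0
    rw [← Filter.eventually_all_finset] at this
    filter_upwards [this] with p hp j hj
    exact hp j (Finset.mem_range.mpr hj)
  have h2 : ∀ᶠ p : (ℕ → Bool) × ℝ≥0 in nhds (b, t), (p.2 : ℝ) < n * h := by
    have hcs : Continuous fun p : (ℕ → Bool) × ℝ≥0 => (p.2 : ℝ) :=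
      NNReal.continuous_coe.comp continuous_snd
    exact (hcs.tendsto (b, t)).eventually (gt_mem_nhds hn)
  filter_upwards [h1, h2] with p hp1 hp2
  exact (lift_eq_of_agree hh hp1 p.2.coe_nonneg hp2.le).symm

theorem continuous_walk {h : ℝ} (hh : 0 < h) : Continuous (walk h) := by
  refine Continuous.subtype_mk ?_ _
  apply ContinuousMap.continuous_of_continuous_uncurry
  exact coe_lipschitz.continuous.comp (continuous_lift_uncurry hh)

theorem walk_apply (h : ℝ) (b : ℕ → Bool) (t : ℝ≥0) :
    (walk h b).1 t = ((lift h b t : ℝ) : UnitAddCircle) := rfl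

theorem place_walk (h : ℝ) (a : UnitAddCircle) (r : Bool) (b : ℕ → Bool) :
    place a r (walk h b) = place a false (walk h (fun j => xor r (b j))) := by
  ext1 t
  cases r
  · simp [place]
  · simp only [place, walk_apply, if_true, Bool.true_xor]
    rw [lift_not]
    simp

theorem coe_eq_zero_iff_int (x : ℝ) : ((x : ℝ) : UnitAddCircle) = 0 ↔ ∃ n : ℤ, (n : ℝ) = x := by
  rw [AddCircle.coe_eq_zero_iff]
  simp

/-- the meeting time depends only on the relative placement -/
theorem meet_place (h : ℝ) (a₁ a₂ : UnitAddCircle) (b b' : ℕ → Bool) :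
    meet (place a₁ false (walk h b)) (place a₂ false (walk h b'))
      = meet (place (a₁ - a₂) false (walk h b)) (place 0 false (walk h b')) := by
  unfold meet place
  congr 1
  ext t
  simp only [Bool.false_eq_true, if_false]
  have : (a₁ + (walk h b).1 t = a₂ + (walk h b').1 t) ↔
      (a₁ - a₂ + (walk h b).1 t = 0 + (walk h b').1 t) := by
    constructor
    · intro hh
      rw [zero_add, sub_add_eq_add_sub, hh]; simp
    · intro hh
      rw [zero_add, sub_add_eq_add_sub, sub_eq_iff_eq_add] at hh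
      rw [hh, add_comm]
  simp only [this]

/-- Relative pay-off of two walks. -/
noncomputable def rel (h : ℝ) (b b' : ℕ → Bool) : ℝ≥0∞ :=
  ∫⁻ x in Ioc (0 : ℝ) 1, meet (place (x : UnitAddCircle) false (walk h b))
    (place 0 false (walk h b'))

theorem lintegral_place (h : ℝ) (b b' : ℕ → Bool) :
    ∫⁻ a₁ : UnitAddCircle, ∫⁻ a₂ : UnitAddCircle,
      meet (place a₁ false (walk h b)) (place a₂ false (walk h b')) = rel h b b' := by
  have h1 : ∀ a₁ : UnitAddCircle, ∫⁻ a₂ : UnitAddCircle,
      meet (place a₁ false (walk h b)) (place a₂ false (walk h b')) = rel h b b' := by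
    intro a₁
    have e1 : ∀ a₂ : UnitAddCircle,
        meet (place a₁ false (walk h b)) (place a₂ false (walk h b'))
        = (fun a => meet (place a false (walk h b)) (place 0 false (walk h b'))) (a₁ - a₂) :=
      fun a₂ => meet_place h a₁ a₂ b b'
    calc ∫⁻ a₂ : UnitAddCircle, meet (place a₁ false (walk h b)) (place a₂ false (walk h b'))
        = ∫⁻ a₂ : UnitAddCircle,
          (fun a => meet (place a false (walk h b)) (place 0 false (walk h b'))) (a₁ - a₂) :=
          lintegral_congr e1
      _ = ∫⁻ a : UnitAddCircle, meet (place a false (walk h b)) (place 0 false (walk h b')) :=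
          lintegral_sub_left_eq_self (μ := (volume : Measure UnitAddCircle))
            (fun a => meet (place a false (walk h b)) (place 0 false (walk h b'))) a₁
      _ = rel h b b' := by
          rw [← UnitAddCircle.lintegral_preimage 0]
          simp [rel]
  simp_rw [h1]
  simp

end Pool.Agent.H576R2.Rdv
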