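import Pool.Agent.H576R2.RdvPath

open MeasureTheory Set
open scoped NNReal ENNReal

namespace Pool.Agent.H576R2.Rdv

instance : IsProbabilityMeasure coins := by unfold coins; infer_instance

theorem unif_singleton (b : Bool) :
    (PMF.uniformOfFintype Bool).toMeasure {b} = (1 / 2 : ℝ≥0∞) := by
  rw [PMF.toMeasure_apply_singleton _ _ (measurableSet_singleton b)]
  simp

/-- first difference with `d` at index `k` -/
def firstDiff (d : ℕ → Bool) (k : ℕ) : Set (ℕ → Bool) :=
  {c | (∀ j < k, c j = d j) ∧ c k ≠ d k}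

theorem measurableSet_firstDiff (d : ℕ → Bool) (k : ℕ) : MeasurableSet (firstDiff d k) := by
  unfold firstDiff
  have h1 : ∀ j, MeasurableSet {c : ℕ → Bool | c j = d j} := fun j => by
    have hm : Measurable fun c : ℕ → Bool => c j := measurable_pi_apply j
    exact hm (measurableSet_singleton (d j))
  have h2 : {c : ℕ → Bool | (∀ j < k, c j = d j) ∧ c k ≠ d k}
      = (⋂ j ∈ Finset.range k, {c : ℕ → Bool | c j = d j}) ∩ {c | c k = d k}ᶜ := by
    ext c; simp
  rw [h2]
  exact (Finset.measurableSet_biInter _ fun j _ => h1 j).inter (h1 k).compl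

theorem coins_firstDiff (d : ℕ → Bool) (k : ℕ) :
    coins (firstDiff d k) = (1 / 2 : ℝ≥0∞) ^ (k + 1) := by
  have : firstDiff d k = Set.pi (Finset.range (k + 1) : Set ℕ)
      (fun j => if j = k then {!d k} else {d j}) := by
    ext c
    simp only [firstDiff, mem_ofPred_eq, Set.mem_pi, Finset.coe_range, mem_Iio]
    constructor
    · rintro ⟨h1, h2⟩ j hj
      by_cases hjk : j = k
      · subst hjk
        simp only [if_true, mem_singleton_iff]
        cases hc : c j <;> cases hd : d j <;> simp_all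
      · rw [if_neg hjk, mem_singleton_iff]
        exact h1 j (by omega)
    · intro h
      refine ⟨fun j hj => ?_, ?_⟩
      · have := h j (by omega)
        rwa [if_neg (by omega), mem_singleton_iff] at this
      · have := h k (by omega)
        rw [if_pos rfl, mem_singleton_iff] at this
        rw [this]
        cases d k <;> simp
  rw [this, coins, Measure.infinitePi_pi]
  · rw [Finset.prod_congr rfl (g := fun _ => (1 / 2 : ℝ≥0∞))]
    · simp
    · intro j _
      by_cases hjk : j = k
      · rw [if_pos hjk]; exact unif_singleton _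
      · rw [if_neg hjk]; exact unif_singleton _
  · intro j _
    by_cases hjk : j = k
    · rw [if_pos hjk]; exact measurableSet_singleton _
    · rw [if_neg hjk]; exact measurableSet_singleton _

theorem coins_agree_le (d : ℕ → Bool) (n : ℕ) :
    coins {c | ∀ j < n, c j = d j} ≤ (1 / 2 : ℝ≥0∞) ^ n := by
  have : {c : ℕ → Bool | ∀ j < n, c j = d j} = Set.pi (Finset.range n : Set ℕ)
      (fun j => {d j}) := by
    ext c; simp [Set.mem_pi]
  rw [this, coins, Measure.infinitePi_pi]
  · rw [Finset.prod_congr rfl (g := fun _ => (1 / 2 : ℝ≥0∞)) (fun j _ => unif_singleton _)]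
    simp
  · intro j _
    exact measurableSet_singleton _

theorem coins_singleton (d : ℕ → Bool) : coins {d} = 0 := by
  have h1 : ∀ n : ℕ, coins {d} ≤ (1 / 2 : ℝ≥0∞) ^ n := fun n =>
    (measure_mono (by intro c hc j _; rw [mem_singleton_iff.mp hc])).trans (coins_agree_le d n)
  have h2 : Filter.Tendsto (fun n : ℕ => (1 / 2 : ℝ≥0∞) ^ n) Filter.atTop (nhds 0) :=
    ENNReal.tendsto_pow_atTop_nhds_zero_of_lt_one (by simp [ENNReal.inv_lt_one])
  exact le_antisymm (ge_of_tendsto' h2 h1) bot_le

theorem lintegral_coins_le (d : ℕ → Bool) (f : (ℕ → Bool) → ℝ≥0∞) (G : ℕ → ℝ≥0∞)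
    (hf : ∀ k, ∀ c ∈ firstDiff d k, f c ≤ G k) :
    ∫⁻ c, f c ∂coins ≤ ∑' k : ℕ, G k * (1 / 2 : ℝ≥0∞) ^ (k + 1) := by
  have hae : ∀ᵐ c ∂coins, f c ≤ ∑' k : ℕ, (firstDiff d k).indicator (fun _ => G k) c := by
    have hne : ∀ᵐ c ∂coins, c ≠ d := by
      rw [ae_iff]
      simpa using coins_singleton d
    filter_upwards [hne] with c hc
    have hex : ∃ k, c k ≠ d k := by
      by_contra hcon
      push Not at hcon
      exact hc (funext hcon)
    classical
    have hmem : c ∈ firstDiff d (Nat.find hex) :=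
      ⟨fun j hj => by simpa using Nat.find_min hex hj, Nat.find_spec hex⟩
    refine (hf _ c hmem).trans ?_
    refine le_trans ?_ (ENNReal.le_tsum (Nat.find hex))
    rw [indicator_of_mem hmem]
  refine (lintegral_mono_ae hae).trans ?_
  rw [lintegral_tsum]
  · refine le_of_eq (tsum_congr fun k => ?_)
    rw [lintegral_indicator_const (measurableSet_firstDiff d k), coins_firstDiff]
  · intro k
    exact (measurable_const.indicator (measurableSet_firstDiff d k)).aemeasurable

theorem le_lintegral_coins (d : ℕ → Bool) (f : (ℕ → Bool) → ℝ≥0∞) (G : ℕ → ℝ≥0∞)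
    (hf : ∀ k, ∀ c ∈ firstDiff d k, G k ≤ f c) :
    ∑' k : ℕ, G k * (1 / 2 : ℝ≥0∞) ^ (k + 1) ≤ ∫⁻ c, f c ∂coins := by
  have hle : ∀ c, ∑' k : ℕ, (firstDiff d k).indicator (fun _ => G k) c ≤ f c := by
    intro c
    by_cases hex : ∃ k, c k ≠ d k
    · classical
      have hmem : c ∈ firstDiff d (Nat.find hex) :=
        ⟨fun j hj => by simpa using Nat.find_min hex hj, Nat.find_spec hex⟩
      rw [tsum_eq_single (Nat.find hex)]
      · rw [indicator_of_mem hmem]
        exact hf _ c hmem
      · intro k hk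
        rw [indicator_of_notMem]
        rintro ⟨h1, h2⟩
        rcases lt_or_gt_of_ne hk with hlt | hgt
        · exact h2 (hmem.1 k hlt)
        · exact hmem.2 (h1 _ hgt)
    · push Not at hex
      have : ∀ k, (firstDiff d k).indicator (fun _ => G k) c = 0 := fun k =>
        indicator_of_notMem (fun hmem => hmem.2 (hex k)) _
      simp [this]
  refine le_trans (le_of_eq ?_) (lintegral_mono hle)
  rw [lintegral_tsum]
  · refine tsum_congr fun k => ?_
    rw [lintegral_indicator_const (measurableSet_firstDiff d k), coins_firstDiff]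
  · intro k
    exact (measurable_const.indicator (measurableSet_firstDiff d k)).aemeasurable

theorem lintegral_coins_coord (k : ℕ) (H : Bool → ℝ≥0∞) :
    ∫⁻ c, H (c k) ∂coins = (H true + H false) * (1 / 2) := by
  have h1 : Measure.map (fun c : ℕ → Bool => c k) coins
      = (PMF.uniformOfFintype Bool).toMeasure := by
    unfold coins
    exact Measure.infinitePi_map_eval _ k
  have h2 : ∫⁻ c, H (c k) ∂coins
      = ∫⁻ b, H b ∂(Measure.map (fun c : ℕ → Bool => c k) coins) := by
    rw [lintegral_map (measurable_of_countable H) (measurable_pi_apply k)]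
  rw [h2, h1, lintegral_fintype]
  simp only [Fintype.sum_bool, unif_singleton]
  rw [add_mul]

theorem hasSum_affine (α β : ℝ) :
    HasSum (fun k : ℕ => (α + β * k) * (1 / 2 : ℝ) ^ (k + 1)) (α + β) := by
  have h1 : HasSum (fun k : ℕ => (1 / 2 : ℝ) ^ k) 2 := hasSum_geometric_two
  have h2 : HasSum (fun k : ℕ => (k : ℝ) * (1 / 2 : ℝ) ^ k) 2 := by
    have := hasSum_coe_mul_geometric_of_norm_lt_one (r := (1 / 2 : ℝ)) (by norm_num)
    norm_num at this ⊢
    exact this
  have h3 := (h1.mul_left (α / 2)).add (h2.mul_left (β / 2))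
  have e1 : (fun k : ℕ => (α + β * k) * (1 / 2 : ℝ) ^ (k + 1))
      = fun b : ℕ => α / 2 * (1 / 2) ^ b + β / 2 * (↑b * (1 / 2) ^ b) := by
    ext k
    rw [pow_succ]; ring
  rw [e1, show α + β = α / 2 * 2 + β / 2 * 2 by ring]
  exact h3

theorem tsum_affine {α β : ℝ} (hα : 0 ≤ α) (hβ : 0 ≤ β) :
    ∑' k : ℕ, ENNReal.ofReal (α + β * k) * (1 / 2 : ℝ≥0∞) ^ (k + 1)
      = ENNReal.ofReal (α + β) := by
  have hnn : ∀ k : ℕ, 0 ≤ α + β * k := fun k => by positivity
  have e : ∀ k : ℕ, ENNReal.ofReal (α + β * k) * (1 / 2 : ℝ≥0∞) ^ (k + 1)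
      = ENNReal.ofReal ((α + β * k) * (1 / 2 : ℝ) ^ (k + 1)) := by
    intro k
    rw [ENNReal.ofReal_mul (hnn k), ENNReal.ofReal_pow (by norm_num)]
    congr 2
    rw [ENNReal.ofReal_div_of_pos (by norm_num)]
    simp
  simp_rw [e]
  rw [← ENNReal.ofReal_tsum_of_nonneg (fun k => mul_nonneg (hnn k) (by positivity))
    (hasSum_affine α β).summable, (hasSum_affine α β).tsum_eq]

end Pool.Agent.H576R2.Rdv
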