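import Pool.Agent.H576R2.RdvMain

open MeasureTheory Set
open scoped NNReal ENNReal

namespace Pool.Agent.H576R2.Rdv

/-- The ten patterns of six quarter steps. -/
def patList : Fin 10 → List Bool
  | 0 => [true, true, true, true, true, true]
  | 1 => [true, true, false, false, true, true]
  | 2 => [true, false, true, true, false, true]
  | 3 => [true, false, false, false, false, true]
  | 4 => [true, true, true, false, false, false]
  | 5 => [false, false, false, false, false, false]
  | 6 => [false, false, true, true, false, false]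
  | 7 => [false, true, false, false, true, false]
  | 8 => [false, true, true, true, true, false]
  | 9 => [false, false, false, true, true, true]

/-- The pattern as a function. -/
def pat (i : Fin 10) (j : ℕ) : Bool := (patList i).getD j false

/-- Reflected pattern. -/
def xpat (r : Bool) (i : Fin 10) (j : ℕ) : Bool := xor r (pat i j)

theorem score_total : ∀ r₁ r₂ : Bool,
    ∑ i : Fin 10, ∑ j : Fin 10, tscore (xpat r₁ i) (xpat r₂ j) = 996 := by
  decide +kernel

/-- Path of the player who follows pattern `i` and then the doubled coins `c`. -/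
noncomputable def wk (i : Fin 10) (c : ℕ → Bool) : PureStrategy := walk (1 / 4) (seq (pat i) c)

theorem continuous_seq (P : ℕ → Bool) : Continuous (seq P) := by
  refine continuous_pi fun j => ?_
  unfold seq
  split_ifs
  · exact continuous_const
  · exact continuous_apply _

theorem continuous_wk (i : Fin 10) : Continuous (wk i) :=
  (continuous_walk (by norm_num)).comp (continuous_seq _)

/-- The competing mixed strategy. -/
noncomputable def star : Measure PureStrategy :=
  (10 : ℝ≥0∞)⁻¹ • ∑ i : Fin 10, Measure.map (wk i) coins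

instance : IsProbabilityMeasure star := by
  constructor
  unfold star
  have h : ∀ i : Fin 10, (Measure.map (wk i) coins) univ = 1 := fun i =>
    (Measure.isProbabilityMeasure_map (μ := coins)
      (continuous_wk i).measurable.aemeasurable).measure_univ
  rw [Measure.smul_apply, Measure.finsetSum_apply]
  simp only [h, Finset.sum_const, Finset.card_univ, Fintype.card_fin, nsmul_eq_mul, mul_one,
    smul_eq_mul]
  exact ENNReal.inv_mul_cancel (by norm_num) (by norm_num)

theorem lintegral_star_le (F : PureStrategy → ℝ≥0∞) :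
    ∫⁻ s, F s ∂star ≤ (10 : ℝ≥0∞)⁻¹ * ∑ i : Fin 10, ∫⁻ c, F (wk i c) ∂coins := by
  unfold star
  rw [lintegral_smul_measure, lintegral_finsetSum_measure, smul_eq_mul]
  gcongr with i
  exact lintegral_map_le _ _

theorem star_directed_upper :
    expected payDirected star star ≤ ENNReal.ofReal (299 / 400) := by
  unfold expected
  refine (lintegral_star_le _).trans ?_
  have h1 : ∀ i : Fin 10, ∫⁻ c, ∫⁻ s₂, payDirected (wk i c) s₂ ∂star ∂coins
      ≤ (10 : ℝ≥0∞)⁻¹ * ∑ j : Fin 10, ENNReal.ofReal ((2 + (tscore (pat i) (pat j) : ℝ)) / 16) := by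
    intro i
    have h2 : ∀ c : ℕ → Bool, ∫⁻ s₂, payDirected (wk i c) s₂ ∂star ≤
        (10 : ℝ≥0∞)⁻¹ * ∑ j : Fin 10, ∑' κ : ℕ,
          ENNReal.ofReal (GG (pat i) (pat j) κ (xor false (c κ))) * (1 / 2 : ℝ≥0∞) ^ (κ + 1) := by
      intro c
      refine (lintegral_star_le _).trans ?_
      gcongr with j
      refine lintegral_coins_le c _ _ ?_
      rintro κ c' ⟨h1, h2⟩
      unfold wk
      rw [payDirected_walk]
      simpa using rel_seq_le (pat i) (pat j) c c' κ (fun j hj => (h1 j hj).symm) h2.symm
    refine (lintegral_mono h2).trans (le_of_eq ?_)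
    rw [lintegral_const_mul', lintegral_finsetSum']
    · congr 1
      exact Finset.sum_congr rfl fun j _ => lintegral_GG (pat i) (pat j) false
    · intro j _
      refine (Measurable.ennreal_tsum fun κ => ?_).aemeasurable
      have hm : Measurable fun c : ℕ → Bool => c κ := measurable_pi_apply κ
      have h3 : Measurable fun σ : Bool => ENNReal.ofReal (GG (pat i) (pat j) κ (xor false σ))
        * (1 / 2 : ℝ≥0∞) ^ (κ + 1) := measurable_of_countable _
      exact h3.comp hm
    · simp
  refine (mul_le_mul_right (Finset.sum_le_sum fun i _ => h1 i) _).trans (le_of_eq ?_)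
  have hs : ∑ i : Fin 10, ∑ j : Fin 10, (tscore (pat i) (pat j) : ℝ) = 996 := by
    have := score_total false false
    have e : ∀ i : Fin 10, xpat false i = pat i := fun i => by ext j; simp [xpat]
    simp only [e] at this
    exact_mod_cast this
  have h10 : (10 : ℝ≥0∞)⁻¹ = ENNReal.ofReal (1 / 10) := by
    rw [ENNReal.ofReal_div_of_pos (by norm_num)]; simp
  have hpos : ∀ i j : Fin 10, (0 : ℝ) ≤ (2 + (tscore (pat i) (pat j) : ℝ)) / 16 :=
    fun i j => by positivity
  rw [h10]
  have e1 : ∀ i : Fin 10, ENNReal.ofReal (1 / 10) * ∑ j : Fin 10,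
      ENNReal.ofReal ((2 + (tscore (pat i) (pat j) : ℝ)) / 16)
      = ENNReal.ofReal ((1 / 10) * ∑ j : Fin 10, (2 + (tscore (pat i) (pat j) : ℝ)) / 16) := by
    intro i
    rw [← ENNReal.ofReal_sum_of_nonneg (fun j _ => hpos i j), ← ENNReal.ofReal_mul (by norm_num)]
  simp_rw [e1]
  rw [← ENNReal.ofReal_sum_of_nonneg (fun i _ => mul_nonneg (by norm_num)
    (Finset.sum_nonneg fun j _ => hpos i j)), ← ENNReal.ofReal_mul (by norm_num)]
  congr 1
  rw [← Finset.mul_sum]
  simp_rw [add_div, Finset.sum_add_distrib, ← Finset.sum_div]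
  rw [hs]
  norm_num

end Pool.Agent.H576R2.Rdv
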