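import Pool.Agent.H576R2.RdvStar

open MeasureTheory Set
open scoped NNReal ENNReal

namespace Pool.Agent.H576R2.Rdv

theorem coins_dominated (d : ℕ → Bool) (f : (ℕ → Bool) → ℝ≥0∞) (G : ℕ → ℝ≥0∞)
    (hf : ∀ k, ∀ c ∈ firstDiff d k, f c ≤ G k) :
    ∃ g : (ℕ → Bool) → ℝ≥0∞, Measurable g ∧ (∀ᵐ c ∂coins, f c ≤ g c) ∧
      ∫⁻ c, g c ∂coins = ∑' k : ℕ, G k * (1 / 2 : ℝ≥0∞) ^ (k + 1) := by
  refine ⟨fun c => ∑' k : ℕ, (firstDiff d k).indicator (fun _ => G k) c, ?_, ?_, ?_⟩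
  · exact Measurable.ennreal_tsum fun k =>
      (measurable_const.indicator (measurableSet_firstDiff d k))
  · have hne : ∀ᵐ c ∂coins, c ≠ d := by
      rw [ae_iff]
      simpa using coins_singleton d
    filter_upwards [hne] with c hc
    have hex : ∃ k, c k ≠ d k := by
      by_contra hcon
      push Not at hcon
      exact hc (funext hcon)
    classical
    have hmem : c ∈ firstDiff d (Nat.find hex) :=
      ⟨fun j hj => by simpa using Nat.find_min hex hj, Nat.find_spec hex⟩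
    refine (hf _ c hmem).trans ?_
    refine le_trans ?_ (ENNReal.le_tsum (Nat.find hex))
    rw [indicator_of_mem hmem]
  · rw [lintegral_tsum]
    · refine tsum_congr fun k => ?_
      rw [lintegral_indicator_const (measurableSet_firstDiff d k), coins_firstDiff]
    · intro k
      exact (measurable_const.indicator (measurableSet_firstDiff d k)).aemeasurable

/-- The bound for the inner average. -/
noncomputable def SS (i j : Fin 10) (r₁ r₂ : Bool) (c : ℕ → Bool) : ℝ≥0∞ :=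
  ∑' κ : ℕ, ENNReal.ofReal (GG (xpat r₁ i) (xpat r₂ j) κ (xor r₁ (c κ)))
    * (1 / 2 : ℝ≥0∞) ^ (κ + 1)

theorem measurable_SS (i j : Fin 10) (r₁ r₂ : Bool) : Measurable (SS i j r₁ r₂) := by
  unfold SS
  refine Measurable.ennreal_tsum fun κ => ?_
  have hm : Measurable fun c : ℕ → Bool => c κ := measurable_pi_apply κ
  have h3 : Measurable fun σ : Bool => ENNReal.ofReal (GG (xpat r₁ i) (xpat r₂ j) κ (xor r₁ σ))
    * (1 / 2 : ℝ≥0∞) ^ (κ + 1) := measurable_of_countable _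
  exact h3.comp hm

theorem inner_undirected (i j : Fin 10) (c : ℕ → Bool) :
    ∫⁻ c', payUndirected (wk i c) (wk j c') ∂coins
      ≤ (∑ r₁ : Bool, ∑ r₂ : Bool, SS i j r₁ r₂ c) * 4⁻¹ := by
  have hdom : ∀ r₁ r₂ : Bool, ∃ g : (ℕ → Bool) → ℝ≥0∞, Measurable g ∧
      (∀ᵐ c' ∂coins, rel (1 / 4) (fun k => xor r₁ (seq (pat i) c k))
        (fun k => xor r₂ (seq (pat j) c' k)) ≤ g c') ∧
      ∫⁻ c', g c' ∂coins = SS i j r₁ r₂ c := by
    intro r₁ r₂
    refine coins_dominated (fun k => xor r₂ (xor r₁ (c k))) _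
      (fun κ => ENNReal.ofReal (GG (xpat r₁ i) (xpat r₂ j) κ (xor r₁ (c κ)))) ?_
    rintro κ c' ⟨h1, h2⟩
    rw [xor_seq, xor_seq]
    refine rel_seq_le (xpat r₁ i) (xpat r₂ j) (fun k => xor r₁ (c k)) (fun k => xor r₂ (c' k)) κ
      ?_ ?_
    · intro k hk
      simp only [h1 k hk]
      simp
    · intro hcon
      apply h2
      simp only [hcon]
      simp
  choose g hg1 hg2 hg3 using hdom
  have hle : ∀ᵐ c' ∂coins, payUndirected (wk i c) (wk j c')
      ≤ (∑ r₁ : Bool, ∑ r₂ : Bool, g r₁ r₂ c') * 4⁻¹ := by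
    filter_upwards [hg2 true true, hg2 true false, hg2 false true, hg2 false false]
      with c' h1 h2 h3 h4
    unfold wk
    rw [payUndirected_walk, div_eq_mul_inv]
    simp only [Fintype.sum_bool]
    gcongr
  refine (lintegral_mono_ae hle).trans (le_of_eq ?_)
  rw [lintegral_mul_const' _ _ (by simp)]
  congr 1
  rw [lintegral_finsetSum _ (fun r₁ _ => Finset.measurable_sum _ fun r₂ _ => hg1 r₁ r₂)]
  refine Finset.sum_congr rfl fun r₁ _ => ?_
  rw [lintegral_finsetSum _ (fun r₂ _ => hg1 r₁ r₂)]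
  exact Finset.sum_congr rfl fun r₂ _ => hg3 r₁ r₂

theorem star_undirected_upper :
    expected payUndirected star star ≤ ENNReal.ofReal (299 / 400) := by
  unfold expected
  refine (lintegral_star_le _).trans ?_
  have h1 : ∀ i : Fin 10, ∫⁻ c, ∫⁻ s₂, payUndirected (wk i c) s₂ ∂star ∂coins
      ≤ (10 : ℝ≥0∞)⁻¹ * ∑ j : Fin 10, (∑ r₁ : Bool, ∑ r₂ : Bool,
        ENNReal.ofReal ((2 + (tscore (xpat r₁ i) (xpat r₂ j) : ℝ)) / 16)) * 4⁻¹ := by
    intro i
    have h2 : ∀ c : ℕ → Bool, ∫⁻ s₂, payUndirected (wk i c) s₂ ∂star ≤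
        (10 : ℝ≥0∞)⁻¹ * ∑ j : Fin 10, (∑ r₁ : Bool, ∑ r₂ : Bool, SS i j r₁ r₂ c) * 4⁻¹ := by
      intro c
      refine (lintegral_star_le _).trans ?_
      gcongr with j
      exact inner_undirected i j c
    refine (lintegral_mono h2).trans (le_of_eq ?_)
    have hm : ∀ j : Fin 10, Measurable fun c => ∑ r₁ : Bool, ∑ r₂ : Bool, SS i j r₁ r₂ c :=
      fun j => Finset.measurable_sum _ fun r₁ _ => Finset.measurable_sum _ fun r₂ _ =>
        measurable_SS i j r₁ r₂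
    rw [lintegral_const_mul' _ _ (by simp), lintegral_finsetSum _ (fun j _ => (hm j).mul_const _)]
    congr 1
    refine Finset.sum_congr rfl fun j _ => ?_
    rw [lintegral_mul_const' _ _ (by simp)]
    congr 1
    rw [lintegral_finsetSum _ (fun r₁ _ => Finset.measurable_sum _ fun r₂ _ =>
      measurable_SS i j r₁ r₂)]
    refine Finset.sum_congr rfl fun r₁ _ => ?_
    rw [lintegral_finsetSum _ (fun r₂ _ => measurable_SS i j r₁ r₂)]
    exact Finset.sum_congr rfl fun r₂ _ => lintegral_GG (xpat r₁ i) (xpat r₂ j) r₁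
  refine (mul_le_mul_right (Finset.sum_le_sum fun i _ => h1 i) _).trans (le_of_eq ?_)
  have hs : ∀ r₁ r₂ : Bool,
      ∑ i : Fin 10, ∑ j : Fin 10, (tscore (xpat r₁ i) (xpat r₂ j) : ℝ) = 996 := by
    intro r₁ r₂
    exact_mod_cast score_total r₁ r₂
  have h10 : (10 : ℝ≥0∞)⁻¹ = ENNReal.ofReal (1 / 10) := by
    rw [ENNReal.ofReal_div_of_pos (by norm_num)]; simp
  have h4 : (4 : ℝ≥0∞)⁻¹ = ENNReal.ofReal (1 / 4) := by
    rw [ENNReal.ofReal_div_of_pos (by norm_num)]; simp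
  have hpos : ∀ (r₁ r₂ : Bool) (i j : Fin 10),
      (0 : ℝ) ≤ (2 + (tscore (xpat r₁ i) (xpat r₂ j) : ℝ)) / 16 :=
    fun r₁ r₂ i j => by positivity
  have hpos2 : ∀ (r₁ : Bool) (i j : Fin 10),
      (0 : ℝ) ≤ ∑ r₂ : Bool, (2 + (tscore (xpat r₁ i) (xpat r₂ j) : ℝ)) / 16 :=
    fun r₁ i j => Finset.sum_nonneg fun r₂ _ => hpos r₁ r₂ i j
  have hpos3 : ∀ (i j : Fin 10),
      (0 : ℝ) ≤ (∑ r₁ : Bool, ∑ r₂ : Bool, (2 + (tscore (xpat r₁ i) (xpat r₂ j) : ℝ)) / 16)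
        * (1 / 4) :=
    fun i j => mul_nonneg (Finset.sum_nonneg fun r₁ _ => hpos2 r₁ i j) (by norm_num)
  rw [h10, h4]
  have e1 : ∀ i : Fin 10, ENNReal.ofReal (1 / 10) * ∑ j : Fin 10, (∑ r₁ : Bool, ∑ r₂ : Bool,
      ENNReal.ofReal ((2 + (tscore (xpat r₁ i) (xpat r₂ j) : ℝ)) / 16)) * ENNReal.ofReal (1 / 4)
      = ENNReal.ofReal ((1 / 10) * ∑ j : Fin 10, (∑ r₁ : Bool, ∑ r₂ : Bool,
        (2 + (tscore (xpat r₁ i) (xpat r₂ j) : ℝ)) / 16) * (1 / 4)) := by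
    intro i
    rw [ENNReal.ofReal_mul (by norm_num), ENNReal.ofReal_sum_of_nonneg (fun j _ => hpos3 i j)]
    congr 1
    refine Finset.sum_congr rfl fun j _ => ?_
    rw [ENNReal.ofReal_mul (Finset.sum_nonneg fun r₁ _ => hpos2 r₁ i j),
      ENNReal.ofReal_sum_of_nonneg (fun r₁ _ => hpos2 r₁ i j)]
    congr 1
    refine Finset.sum_congr rfl fun r₁ _ => ?_
    rw [ENNReal.ofReal_sum_of_nonneg (fun r₂ _ => hpos r₁ r₂ i j)]
  simp_rw [e1]
  rw [← ENNReal.ofReal_sum_of_nonneg (fun i _ => mul_nonneg (by norm_num)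
    (Finset.sum_nonneg fun j _ => hpos3 i j)), ← ENNReal.ofReal_mul (by norm_num)]
  congr 1
  have e2 : ∑ i : Fin 10, (1 / 10 : ℝ) * ∑ j : Fin 10, (∑ r₁ : Bool, ∑ r₂ : Bool,
        (2 + (tscore (xpat r₁ i) (xpat r₂ j) : ℝ)) / 16) * (1 / 4)
      = (1 / 10) * ((∑ r₁ : Bool, ∑ r₂ : Bool,
        (200 + ∑ i : Fin 10, ∑ j : Fin 10, (tscore (xpat r₁ i) (xpat r₂ j) : ℝ)) / 16)
          * (1 / 4)) := by
    rw [← Finset.mul_sum]
    congr 1
    simp only [Fintype.sum_bool, ← Finset.sum_mul]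
    congr 1
    simp only [add_div, Finset.sum_add_distrib, ← Finset.sum_div]
    simp only [Finset.sum_const, Finset.card_univ, Fintype.card_fin, nsmul_eq_mul]
    ring
  rw [e2]
  simp only [hs, Fintype.sum_bool]
  norm_num

end Pool.Agent.H576R2.Rdv
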