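import Pool.Agent.H576R2.RdvGeo

open MeasureTheory Set
open scoped NNReal ENNReal

namespace Pool.Agent.H576R2.Rdv

/-- `true ↦ 1`, `false ↦ 0`. -/
def b2i (b : Bool) : ℤ := if b then 1 else 0

/-- Relative displacement (in units of `1/2`) after `k` quarter steps. -/
def zs (b b' : ℕ → Bool) (k : ℕ) : ℤ := ∑ j ∈ Finset.range k, (b2i (b j) - b2i (b' j))

/-- Left end (in units of `1/2`) of the relative step number `k`. -/
def wm (b b' : ℕ → Bool) (k : ℕ) : ℤ := if b k then zs b b' k else zs b b' k - 1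

/-- Step `k` sweeps the half circle number `a` (`a = 0` or `1`). -/
def Trav (b b' : ℕ → Bool) (a : ℤ) (k : ℕ) : Prop := b k ≠ b' k ∧ wm b b' k % 2 = a

instance (b b' : ℕ → Bool) (a : ℤ) (k : ℕ) : Decidable (Trav b b' a k) := by
  unfold Trav; infer_instance

theorem dir_eq (b : Bool) : dir b = 2 * (b2i b : ℝ) - 1 := by
  cases b <;> norm_num [dir, b2i]

theorem lift_sub_eq (b b' : ℕ → Bool) (k : ℕ) :
    lift (1 / 4) b (k * (1 / 4)) - lift (1 / 4) b' (k * (1 / 4)) = (zs b b' k : ℝ) / 2 := by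
  rw [lift_nat (by norm_num), lift_nat (by norm_num), ← mul_sub, ← Finset.sum_sub_distrib]
  unfold zs
  push_cast
  rw [Finset.mul_sum, Finset.sum_div]
  refine Finset.sum_congr rfl fun j _ => ?_
  rw [dir_eq, dir_eq]
  ring

theorem lift_sub_step (b b' : ℕ → Bool) (k : ℕ) (hk : b k ≠ b' k) (u : ℝ) (h0 : 0 ≤ u)
    (h1 : u ≤ 1 / 4) :
    lift (1 / 4) b (k * (1 / 4) + u) - lift (1 / 4) b' (k * (1 / 4) + u)
      = (if b k then (wm b b' k : ℝ) / 2 + 2 * u else ((wm b b' k : ℝ) + 1) / 2 - 2 * u) := by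
  rw [lift_add (by norm_num) b k h0 h1, lift_add (by norm_num) b' k h0 h1]
  have e := lift_sub_eq b b' k
  cases hb : b k with
  | true =>
    have hb' : b' k = false := by
      cases hx : b' k
      · rfl
      · exact absurd (hb.trans hx.symm) hk
    rw [hb', if_pos rfl]
    simp only [wm, hb, if_true, dir, Bool.false_eq_true, if_false]
    linarith
  | false =>
    have hb' : b' k = true := by
      cases hx : b' k
      · exact absurd (hb.trans hx.symm) hk
      · rfl
    rw [hb', if_neg (by simp)]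
    simp only [wm, hb, if_true, dir, Bool.false_eq_true, if_false]
    push_cast
    linarith

/-- integral bound on the half circle `[1/2, 1]` -/
theorem lint_even (b b' : ℕ → Bool) (k : ℕ) (h : Trav b b' 0 k) :
    ∫⁻ x in Ioc (1 / 2 : ℝ) 1, meet (place (x : UnitAddCircle) false (walk (1 / 4) b))
      (place 0 false (walk (1 / 4) b')) ≤ ENNReal.ofReal (k / 8 + 1 / 16) := by
  obtain ⟨hk, hw⟩ := h
  obtain ⟨m, hm⟩ : ∃ m : ℤ, wm b b' k = 2 * m := ⟨wm b b' k / 2, by omega⟩
  have hk0 : (0 : ℝ) ≤ k := k.cast_nonneg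
  cases hb : b k with
  | true =>
    have hint : ∫⁻ x in Ioc (1 / 2 : ℝ) 1, ENNReal.ofReal ((k / 4 + 1 / 2) + (-1 / 2) * x)
        = ENNReal.ofReal (k / 8 + 1 / 16) := by
      have := lintegral_affine (k / 4 + 1 / 2) (-1 / 2) (1 / 2) (1 / 2) (by norm_num) (by
        intro x hx
        have h1 : x ≤ 1 / 2 + 1 / 2 := hx.2
        linarith)
      rw [show (1 / 2 + 1 / 2 : ℝ) = 1 by norm_num] at this
      rw [this]
      congr 1
      ring
    rw [← hint]
    refine setLIntegral_mono' measurableSet_Ioc fun x hx => ?_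
    have hx1 : 1 / 2 < x := hx.1
    have hx2 : x ≤ 1 := hx.2
    refine (meet_le (1 / 4) x b b' (k * (1 / 4) + (1 - x) / 2) (by linarith) (m + 1) ?_).trans
      (le_of_eq ?_)
    · have := lift_sub_step b b' k hk ((1 - x) / 2) (by linarith) (by linarith)
      rw [hb, if_pos rfl, hm] at this
      push_cast at this ⊢
      linarith
    · congr 1; ring
  | false =>
    have hint : ∫⁻ x in Ioc (1 / 2 : ℝ) 1, ENNReal.ofReal ((k / 4 - 1 / 4) + (1 / 2) * x)
        = ENNReal.ofReal (k / 8 + 1 / 16) := by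
      have := lintegral_affine (k / 4 - 1 / 4) (1 / 2) (1 / 2) (1 / 2) (by norm_num) (by
        intro x hx
        have h1 : 1 / 2 < x := hx.1
        linarith)
      rw [show (1 / 2 + 1 / 2 : ℝ) = 1 by norm_num] at this
      rw [this]
      congr 1
      ring
    rw [← hint]
    refine setLIntegral_mono' measurableSet_Ioc fun x hx => ?_
    have hx1 : 1 / 2 < x := hx.1
    have hx2 : x ≤ 1 := hx.2
    refine (meet_le (1 / 4) x b b' (k * (1 / 4) + (x - 1 / 2) / 2) (by linarith) (m + 1) ?_).trans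
      (le_of_eq ?_)
    · have := lift_sub_step b b' k hk ((x - 1 / 2) / 2) (by linarith) (by linarith)
      rw [hb, if_neg (by simp), hm] at this
      push_cast at this ⊢
      linarith
    · congr 1; ring

/-- integral bound on the half circle `[0, 1/2]` -/
theorem lint_odd (b b' : ℕ → Bool) (k : ℕ) (h : Trav b b' 1 k) :
    ∫⁻ x in Ioc (0 : ℝ) (1 / 2), meet (place (x : UnitAddCircle) false (walk (1 / 4) b))
      (place 0 false (walk (1 / 4) b')) ≤ ENNReal.ofReal (k / 8 + 1 / 16) := by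
  obtain ⟨hk, hw⟩ := h
  obtain ⟨m, hm⟩ : ∃ m : ℤ, wm b b' k = 2 * m + 1 := ⟨wm b b' k / 2, by omega⟩
  have hk0 : (0 : ℝ) ≤ k := k.cast_nonneg
  cases hb : b k with
  | true =>
    have hint : ∫⁻ x in Ioc (0 : ℝ) (1 / 2), ENNReal.ofReal ((k / 4 + 1 / 4) + (-1 / 2) * x)
        = ENNReal.ofReal (k / 8 + 1 / 16) := by
      have := lintegral_affine (k / 4 + 1 / 4) (-1 / 2) 0 (1 / 2) (by norm_num) (by
        intro x hx
        have h1 : x ≤ 0 + 1 / 2 := hx.2
        linarith)
      rw [show (0 + 1 / 2 : ℝ) = 1 / 2 by norm_num] at this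
      rw [this]
      congr 1
      ring
    rw [← hint]
    refine setLIntegral_mono' measurableSet_Ioc fun x hx => ?_
    have hx1 : 0 < x := hx.1
    have hx2 : x ≤ 1 / 2 := hx.2
    refine (meet_le (1 / 4) x b b' (k * (1 / 4) + (1 / 2 - x) / 2) (by linarith) (m + 1) ?_).trans
      (le_of_eq ?_)
    · have := lift_sub_step b b' k hk ((1 / 2 - x) / 2) (by linarith) (by linarith)
      rw [hb, if_pos rfl, hm] at this
      push_cast at this ⊢
      linarith
    · congr 1; ring
  | false =>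
    have hint : ∫⁻ x in Ioc (0 : ℝ) (1 / 2), ENNReal.ofReal ((k / 4) + (1 / 2) * x)
        = ENNReal.ofReal (k / 8 + 1 / 16) := by
      have := lintegral_affine (k / 4) (1 / 2) 0 (1 / 2) (by norm_num) (by
        intro x hx
        have h1 : 0 < x := hx.1
        linarith)
      rw [show (0 + 1 / 2 : ℝ) = 1 / 2 by norm_num] at this
      rw [this]
      congr 1
      ring
    rw [← hint]
    refine setLIntegral_mono' measurableSet_Ioc fun x hx => ?_
    have hx1 : 0 < x := hx.1
    have hx2 : x ≤ 1 / 2 := hx.2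
    refine (meet_le (1 / 4) x b b' (k * (1 / 4) + x / 2) (by linarith) (m + 1) ?_).trans
      (le_of_eq ?_)
    · have := lift_sub_step b b' k hk (x / 2) (by linarith) (by linarith)
      rw [hb, if_neg (by simp), hm] at this
      push_cast at this ⊢
      linarith
    · congr 1; ring

theorem rel_quarter_le (b b' : ℕ → Bool) (k₀ k₁ : ℕ) (h₀ : Trav b b' 0 k₀)
    (h₁ : Trav b b' 1 k₁) :
    rel (1 / 4) b b' ≤ ENNReal.ofReal (((k₀ : ℝ) + k₁ + 1) / 8) := by
  unfold rel
  have hu : Ioc (0 : ℝ) 1 = Ioc (0 : ℝ) (1 / 2) ∪ Ioc (1 / 2 : ℝ) 1 := by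
    rw [Ioc_union_Ioc_eq_Ioc] <;> norm_num
  rw [hu]
  refine (lintegral_union_le _ _ _).trans ?_
  refine (add_le_add (lint_odd b b' k₁ h₁) (lint_even b b' k₀ h₀)).trans (le_of_eq ?_)
  rw [← ENNReal.ofReal_add (by positivity) (by positivity)]
  congr 1
  ring

end Pool.Agent.H576R2.Rdv
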